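import Pool.Agent.H98.P4.NF
import Pool.Agent.H12.P5.Stm

/-!
# The target is not full, given the picture (P5, NFStmt)
-/

set_option autoImplicit false

namespace Pool.P5N

open Finset Real
open Pool.Agent.H49.Ent Pool.Agent.H32.Dense Pool.STK Pool.STAT Pool.MIC Pool.P5
open Pool.BFL (Pb)
open Pool.P4 (t0 rt pp PthC FraC bb ze zt z0 be cl1 dg dgp Ry cb LLC tq GoodS FrP err)
open Pool.P4N (Ry_one dg_eq dg_sub dgp_eq dg_bd rt_bd rt_T fl_eq fl_sub few_ev CH_one_low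
  nd_div sh_bd log_4X)

variable {D : NDat2} {n K K' J a₀ w₀ z M w i j r r2 r' r'' y a X : ℕ} {lam gam : ℕ → ℝ}
  {κ C₁ C : ℝ} {q : D.Ω → ℝ} {E : D.Ω → Prop} {P : D.Γ × D.Γ → ℕ → PN}
  {S : Slo D} {c k0 k1 : ℕ} {ys : Fin (k0 + k1) → ℕ} {gs : Fin c → ℕ}

theorem Rg_eq (z : ℕ) (C : ℝ) : Rg z C = 2 * (Ry z C * (Ry z C * Ry z C)) := by
  unfold Rg Ry
  rw [← Real.exp_add, ← Real.exp_add]
  congr 2
  ring

/-- The two units. -/
theorem Rg_Ry (hC : 0 ≤ C) (z : ℕ) : 2 * Ry z C ≤ Rg z C ∧ 2 * (Ry z C * Ry z C) ≤ Rg z C := by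
  have hRy := Ry_one hC z
  have h1 : 1 ≤ Ry z C * Ry z C := by nlinarith only [hRy]
  rw [Rg_eq]
  constructor
  · nlinarith only [hRy, h1]
  · nlinarith only [hRy, h1]

/-- Equal digits of a quotient. -/
theorem dg_div {R x x' : ℝ} (hR : 0 < R) (hx : |x| ≤ R) (hx' : |x'| ≤ R)
    (h : dg X (x / R) = dg X (x' / R)) : |x - x'| ≤ ((2 : ℝ) ^ X)⁻¹ * R := by
  have hdiv : ∀ x : ℝ, |x| ≤ R → |x / R| ≤ 1 := by
    intro x hx
    rw [abs_div, abs_of_pos hR, div_le_one hR]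
    exact hx
  have e3 := dg_eq (hdiv _ hx) (hdiv _ hx') h
  rwa [← sub_div, abs_div, abs_of_pos hR, div_le_iff₀ hR] at e3

/-- Equal digits of a slow coordinate. -/
theorem dgp_div {R x x' : ℝ} (hR : 0 < R) (hx : |x| ≤ R) (hx' : |x'| ≤ R)
    (h : dgp X ((x + R) / (2 * R)) = dgp X ((x' + R) / (2 * R))) :
    |x - x'| ≤ ((2 : ℝ) ^ X)⁻¹ * (2 * R) := by
  have hR2 : 0 < 2 * R := by linarith
  obtain ⟨c1, c2⟩ := abs_le.1 hx
  obtain ⟨d1, d2⟩ := abs_le.1 hx'
  have e3 := dgp_eq (div_nonneg (by linarith) hR2.le) ((div_le_one hR2).2 (by linarith))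
    (div_nonneg (by linarith) hR2.le) ((div_le_one hR2).2 (by linarith)) h
  rw [← sub_div, abs_div, abs_of_pos hR2, div_le_iff₀ hR2] at e3
  have e4 : x + R - (x' + R) = x - x' := by ring
  rwa [e4] at e3

/-- A product with a number of `[0, 1]`. -/
theorem mul01 {ρ x x' A : ℝ} (r0 : 0 ≤ ρ) (r1 : ρ ≤ 1) (h : |x - x'| ≤ A) :
    |ρ * x - ρ * x'| ≤ A := by
  rw [← mul_sub, abs_mul, abs_of_nonneg r0]
  calc ρ * |x - x'| ≤ 1 * |x - x'| := mul_le_mul_of_nonneg_right r1 (abs_nonneg _)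
    _ ≤ A := by rw [one_mul]; exact h

/-- **The coordinates before the target are determined by the picture.** -/
theorem ze_near (H : Hyp D n K K' J a₀ w₀ z M w i j r r2 r' r'' y a X lam gam κ C₁ C q E P S ys gs)
    {ω ω' : D.Ω} (h1 : 0 < q ω) (h2 : 0 < q ω') (hE : E ω) (hE' : E ω') (hT : D.T ω = D.T ω')
    (hy : yv D J w z i j r X C P ys ω = yv D J w z i j r X C P ys ω')
    (hm : mv D J w z i j r X C P ys ω = mv D J w z i j r X C P ys ω')
    (hbe : bev D J w z i j r X C P gs ω = bev D J w z i j r X C P gs ω')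
    (hb2 : be2v D J w z i j r X C P gs ω = be2v D J w z i j r X C P gs ω')
    (u₀ : ℕ) (hnu : ∀ u, gs u ≠ u₀ →
      nuv D J w z i j r X C P gs ω u = nuv D J w z i j r X C P gs ω' u)
    {l : ℕ} (hl1 : 1 ≤ l) (hln : l ≤ n) (hl0 : l ≠ u₀) :
    |ze D i j r P ω l - ze D i j r P ω' l| ≤ 8 * Rg z C * ((2 : ℝ) ^ X)⁻¹ := by
  have hC0 : 0 ≤ C := by linarith [H.Cg]
  have hRy := Ry_one hC0 z
  obtain ⟨hRg1, -⟩ := Rg_Ry hC0 z
  have hRy0 : 0 < Ry z C := by linarith
  have hRg0 : 0 < Rg z C := by linarith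
  have hp : (0 : ℝ) < 2 ^ X := by positivity
  have hi : (0 : ℝ) < ((2 : ℝ) ^ X)⁻¹ := by positivity
  have hτ : exp (C * z) / 2 ^ (y * z) ≤ ((2 : ℝ) ^ X)⁻¹ := by
    rw [div_le_iff₀ (by positivity), inv_mul_eq_div, le_div_iff₀ hp]
    exact H.yX
  have hg := H.geo
  have hw := H.w1
  have hw' := H.w2
  have x1 := H.ok.X_zero ω
  have x2 := H.ok.X_zero ω'
  have hwJ : w ≤ J := by
    have := H.ok.thin
    have := H.ok.top
    have h3 : (j + 1) * z ≤ (M + 1) * z := Nat.mul_le_mul_right _ (by have := H.j2; omega)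
    omega
  obtain ⟨r0, r1⟩ := rt_bd hwJ x1
  have rr := rt_T (J := J) (w := w) x1 x2 hT
  have m1 : ((2 : ℝ) ^ X)⁻¹ * (2 * Ry z C) ≤ ((2 : ℝ) ^ X)⁻¹ * Rg z C :=
    mul_le_mul_of_nonneg_left hRg1 hi.le
  have m2 : ((2 : ℝ) ^ X)⁻¹ * 2 ≤ ((2 : ℝ) ^ X)⁻¹ * Rg z C :=
    mul_le_mul_of_nonneg_left (by linarith) hi.le
  obtain ⟨b1, b3, b5⟩ := hg.bt ω h1 hE l hl1 hln w hw hw'
  obtain ⟨b2, b4, b6⟩ := hg.bt ω' h2 hE' l hl1 hln w hw hw'
  change |z0 D J w i j r P ω l| ≤ Ry z C at b1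
  change |z0 D J w i j r P ω' l| ≤ Ry z C at b2
  change |Pool.P5.b1 D J w i j r P ω l| ≤ Ry z C at b3
  change |Pool.P5.b1 D J w i j r P ω' l| ≤ Ry z C at b4
  change |Pool.P5.b2 D J w i j r P ω l| ≤ Ry z C at b5
  change |Pool.P5.b2 D J w i j r P ω' l| ≤ Ry z C at b6
  by_cases hs : sl gam n l
  · obtain ⟨b, hb⟩ := H.ys_on hs
    have hy' := congrFun hy b
    unfold yv at hy'
    rw [hb] at hy'
    have e3 := dgp_div hRy0 b1 b2 hy'
    rcases (sl_iff H.g3 l).1 hs with hs0 | hs1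
    · obtain ⟨e1, -, -⟩ := hg.slow0 ω h1 hE l hs0 w hw hw'
      obtain ⟨e2, -, -⟩ := hg.slow0 ω' h2 hE' l hs0 w hw hw'
      obtain ⟨f1, f2⟩ := abs_le.1 e1
      obtain ⟨f3, f4⟩ := abs_le.1 e2
      obtain ⟨f5, f6⟩ := abs_le.1 e3
      rw [abs_le]
      constructor <;> linarith
    · obtain ⟨e1, -⟩ := hg.slow1 ω h1 hE l hs1 w hw hw'
      obtain ⟨e2, -⟩ := hg.slow1 ω' h2 hE' l hs1 w hw hw'
      obtain ⟨a1, ha1⟩ := H.ys_on1 l hs1
      have hm' := congrFun hm a1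
      unfold mv at hm'
      rw [ha1] at hm'
      have e4 := dg_div (by linarith) (by linarith) (by linarith) hm'
      have e6 := mul01 r0 r1 e4
      rw [← rr] at e2
      obtain ⟨f1, f2⟩ := abs_le.1 e1
      obtain ⟨f3, f4⟩ := abs_le.1 e2
      obtain ⟨f5, f6⟩ := abs_le.1 e3
      obtain ⟨f7, f8⟩ := abs_le.1 e6
      rw [abs_le]
      constructor <;> linarith
  · have hg1 : gr gam n l := by
      refine ⟨hl1, hln, ?_⟩
      by_contra hcon
      push Not at hcon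
      refine hs ⟨hl1, lt_of_le_of_ne hln ?_, hcon⟩
      intro hln'
      rw [hln'] at hcon
      exact absurd hcon (lt_irrefl _)
    obtain ⟨u, hu⟩ := H.gs_on l hg1
    have e1 := hg.grp ω h1 hE l hg1 w hw hw'
    have e2 := hg.grp ω' h2 hE' l hg1 w hw hw'
    have n1 := hnu u (by rw [hu]; exact hl0)
    have n2 := congrFun hbe u
    have n3 := congrFun hb2 u
    unfold nuv at n1
    unfold bev at n2
    unfold be2v at n3
    rw [hu] at n1 n2 n3
    have e3 := dg_div hRg0 (by linarith) (by linarith) n1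
    have e4 := mul01 r0 r1 (dg_div hRg0 (by linarith) (by linarith) n2)
    have e5 := mul01 (pow_nonneg r0 2) (pow_le_one₀ r0 r1)
      (dg_div hRg0 (by linarith) (by linarith) n3)
    rw [← rr] at e2
    obtain ⟨f1, f2⟩ := abs_le.1 e1
    obtain ⟨f3, f4⟩ := abs_le.1 e2
    obtain ⟨f5, f6⟩ := abs_le.1 e3
    obtain ⟨f7, f8⟩ := abs_le.1 e4
    obtain ⟨f9, f10⟩ := abs_le.1 e5
    rw [abs_le]
    constructor <;> linarith

/-- The heights of the base over the visible labels are determined by the picture. -/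
theorem sh_near (H : Hyp D n K K' J a₀ w₀ z M w i j r r2 r' r'' y a X lam gam κ C₁ C q E P S ys gs)
    {ω ω' : D.Ω} (h1 : 0 < q ω) (h2 : 0 < q ω') (hE : E ω) (hE' : E ω')
    (hb : cb D J w i j r ω = cb D J w i j r ω') (hT : D.T ω = D.T ω')
    (hy : yv D J w z i j r X C P ys ω = yv D J w z i j r X C P ys ω')
    (hm : mv D J w z i j r X C P ys ω = mv D J w z i j r X C P ys ω')
    (hbe : bev D J w z i j r X C P gs ω = bev D J w z i j r X C P gs ω')
    (hb2 : be2v D J w z i j r X C P gs ω = be2v D J w z i j r X C P gs ω')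
    (hnu : ∀ u, gs u ≠ n →
      nuv D J w z i j r X C P gs ω u = nuv D J w z i j r X C P gs ω' u)
    {l : ℕ} (hl1 : 1 ≤ l) (hln : l < n) :
    |2 ^ D.g i j l * D.sh i j ω l - 2 ^ D.g i j l * D.sh i j ω' l| ≤
      Ry z C * (8 * Rg z C * ((2 : ℝ) ^ X)⁻¹) := by
  have hC0 : 0 ≤ C := by linarith [H.Cg]
  have hRy := Ry_one hC0 z
  obtain ⟨hRg1, -⟩ := Rg_Ry hC0 z
  have hRg0 : 0 < Rg z C := by linarith
  have hbb : bb D i j r ω = bb D i j r ω' := (Prod.ext_iff.1 hb).1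
  refine H.geo.toV ω ω' h1 h2 hE hE' hbb hT l hl1 hln.le _ (by positivity) fun k hk1 hkl => ?_
  exact ze_near H h1 h2 hE hE' hT hy hm hbe hb2 n hnu hk1 (hkl.trans hln.le) (by omega)

/-- The height of the target is determined by the picture and by its height over the visible
label. -/
theorem nu_near (H : Hyp D n K K' J a₀ w₀ z M w i j r r2 r' r'' y a X lam gam κ C₁ C q E P S ys gs)
    {ω ω' : D.Ω} (h1 : 0 < q ω) (h2 : 0 < q ω') (hE : E ω) (hE' : E ω')
    (hb : cb D J w i j r ω = cb D J w i j r ω') (hT : D.T ω = D.T ω')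
    (hy : yv D J w z i j r X C P ys ω = yv D J w z i j r X C P ys ω')
    (hm : mv D J w z i j r X C P ys ω = mv D J w z i j r X C P ys ω')
    (hbe : bev D J w z i j r X C P gs ω = bev D J w z i j r X C P gs ω')
    (hb2 : be2v D J w z i j r X C P gs ω = be2v D J w z i j r X C P gs ω')
    (hnu : ∀ u, gs u ≠ n →
      nuv D J w z i j r X C P gs ω u = nuv D J w z i j r X C P gs ω' u) {n₀ : Fin c}
    (hn : gs n₀ = n) (hnd : D.nd n i j X ω = D.nd n i j X ω') :
    |((nuv D J w z i j r X C P gs ω n₀ - nuv D J w z i j r X C P gs ω' n₀ : ℤ) : ℝ)| ≤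
      16 * (Ry z C * Ry z C) := by
  have hC0 : 0 ≤ C := by linarith [H.Cg]
  have hRy := Ry_one hC0 z
  obtain ⟨hRg1, -⟩ := Rg_Ry hC0 z
  have hp : (0 : ℝ) < 2 ^ X := by positivity
  have hi : (0 : ℝ) < ((2 : ℝ) ^ X)⁻¹ := by positivity
  have hpi : (2 : ℝ) ^ X * ((2 : ℝ) ^ X)⁻¹ = 1 := mul_inv_cancel₀ hp.ne'
  have hRg0 : 0 < Rg z C := by linarith
  have hgn : gr gam n n := hn ▸ H.gs_gr n₀
  have hn1 := H.n1
  have hg := H.geo
  have hw := H.w1
  have hw' := H.w2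
  have hbb : bb D i j r ω = bb D i j r ω' := (Prod.ext_iff.1 hb).1
  have hτ : exp (C * z) / 2 ^ (y * z) ≤ ((2 : ℝ) ^ X)⁻¹ := by
    rw [div_le_iff₀ (by positivity), inv_mul_eq_div, le_div_iff₀ hp]
    exact H.yX
  have k1 : |ze D i j r P ω n - ze D i j r P ω' n| ≤
      Ry z C * (Ry z C * (8 * Rg z C * ((2 : ℝ) ^ X)⁻¹)) := by
    refine hg.ofV ω ω' h1 h2 hE hE' hbb hT n hn1 le_rfl _ (by positivity) fun k hk1 hkn => ?_
    rcases lt_or_eq_of_le hkn with hk | hk
    · exact sh_near H h1 h2 hE hE' hb hT hy hm hbe hb2 hnu hk1 hk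
    · subst hk
      unfold NDat2.nd at hnd
      have e1 := fl_eq hnd
      rw [pow_add] at e1
      have e2 : (2 : ℝ) ^ D.g i j k * 2 ^ X * D.sh i j ω k -
          2 ^ D.g i j k * 2 ^ X * D.sh i j ω' k =
          2 ^ X * (2 ^ D.g i j k * D.sh i j ω k - 2 ^ D.g i j k * D.sh i j ω' k) := by ring
      rw [e2, abs_mul, abs_of_pos hp] at e1
      have e3 : |2 ^ D.g i j k * D.sh i j ω k - 2 ^ D.g i j k * D.sh i j ω' k| ≤
          ((2 : ℝ) ^ X)⁻¹ := by
        rw [← one_div, le_div_iff₀ hp]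
        linarith
      refine e3.trans ?_
      have e4 : 1 ≤ Ry z C * (8 * Rg z C) := by nlinarith only [hRy, hRg1]
      calc ((2 : ℝ) ^ X)⁻¹ = 1 * ((2 : ℝ) ^ X)⁻¹ := by ring
        _ ≤ (Ry z C * (8 * Rg z C)) * ((2 : ℝ) ^ X)⁻¹ := mul_le_mul_of_nonneg_right e4 hi.le
        _ = _ := by ring
  have e1 := hg.grp ω h1 hE n hgn w hw hw'
  have e2 := hg.grp ω' h2 hE' n hgn w hw hw'
  obtain ⟨b1, b3, b5⟩ := hg.bt ω h1 hE n hn1 le_rfl w hw hw'
  obtain ⟨b2, b4, b6⟩ := hg.bt ω' h2 hE' n hn1 le_rfl w hw hw'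
  change |z0 D J w i j r P ω n| ≤ Ry z C at b1
  change |z0 D J w i j r P ω' n| ≤ Ry z C at b2
  change |Pool.P5.b1 D J w i j r P ω n| ≤ Ry z C at b3
  change |Pool.P5.b1 D J w i j r P ω' n| ≤ Ry z C at b4
  change |Pool.P5.b2 D J w i j r P ω n| ≤ Ry z C at b5
  change |Pool.P5.b2 D J w i j r P ω' n| ≤ Ry z C at b6
  have n2 := congrFun hbe n₀
  have n3 := congrFun hb2 n₀
  unfold bev at n2
  unfold be2v at n3
  rw [hn] at n2 n3
  have x1 := H.ok.X_zero ω
  have x2 := H.ok.X_zero ω'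
  have hwJ : w ≤ J := by
    have := H.ok.thin
    have := H.ok.top
    have h3 : (j + 1) * z ≤ (M + 1) * z := Nat.mul_le_mul_right _ (by have := H.j2; omega)
    omega
  obtain ⟨r0, r1⟩ := rt_bd hwJ x1
  have rr := rt_T (J := J) (w := w) x1 x2 hT
  rw [← rr] at e2
  have e4 := mul01 r0 r1 (dg_div hRg0 (by linarith) (by linarith) n2)
  have e5 := mul01 (pow_nonneg r0 2) (pow_le_one₀ r0 r1)
    (dg_div hRg0 (by linarith) (by linarith) n3)
  have e7 : |z0 D J w i j r P ω n - z0 D J w i j r P ω' n| ≤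
      Ry z C * (Ry z C * (8 * Rg z C * ((2 : ℝ) ^ X)⁻¹)) + 2 * ((2 : ℝ) ^ X)⁻¹ +
        2 * (((2 : ℝ) ^ X)⁻¹ * Rg z C) := by
    obtain ⟨f1, f2⟩ := abs_le.1 e1
    obtain ⟨f3, f4⟩ := abs_le.1 e2
    obtain ⟨f5, f6⟩ := abs_le.1 k1
    obtain ⟨f7, f8⟩ := abs_le.1 e4
    obtain ⟨f9, f10⟩ := abs_le.1 e5
    rw [abs_le]
    constructor <;> linarith
  have hdiv : ∀ x : ℝ, |x| ≤ Ry z C → |x / Rg z C| ≤ 1 := by
    intro x hx
    rw [abs_div, abs_of_pos hRg0, div_le_one hRg0]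
    linarith
  have e8 := dg_sub (X := X) (hdiv _ b1) (hdiv _ b2)
  rw [← sub_div, abs_div, abs_of_pos hRg0] at e8
  unfold nuv
  rw [hn]
  refine e8.trans ?_
  have e9 : (2 : ℝ) ^ X * (|z0 D J w i j r P ω n - z0 D J w i j r P ω' n| / Rg z C) ≤
      8 * (Ry z C * Ry z C) + 2 + 2 := by
    rw [← mul_div_assoc, div_le_iff₀ hRg0]
    calc (2 : ℝ) ^ X * |z0 D J w i j r P ω n - z0 D J w i j r P ω' n| ≤
        2 ^ X * (Ry z C * (Ry z C * (8 * Rg z C * ((2 : ℝ) ^ X)⁻¹)) + 2 * ((2 : ℝ) ^ X)⁻¹ +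
        2 * (((2 : ℝ) ^ X)⁻¹ * Rg z C)) := mul_le_mul_of_nonneg_left e7 hp.le
      _ = (2 ^ X * ((2 : ℝ) ^ X)⁻¹) * (8 * (Ry z C * Ry z C) * Rg z C + 2 + 2 * Rg z C) := by ring
      _ = 8 * (Ry z C * Ry z C) * Rg z C + 2 + 2 * Rg z C := by rw [hpi, one_mul]
      _ ≤ (8 * (Ry z C * Ry z C) + 2 + 2) * Rg z C := by nlinarith only [hRy, hRg1]
  nlinarith only [e9, hRy]

theorem log64' {C : ℝ} (hC : 0 ≤ C) {z : ℕ} (hz : 1 ≤ z) {t : ℝ} (ht : 0 < t)
    (h : t ≤ 64 * (Ry z C * Ry z C * (Ry z C * Ry z C))) : Real.log t ≤ (5 + 4 * C) * z := by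
  have hRy := Ry_one hC z
  have hl : Real.log 2 < 0.6931471808 := Real.log_two_lt_d9
  have hz1 : (1 : ℝ) ≤ z := by exact_mod_cast hz
  have h1 := Real.log_le_log ht h
  have h2 : Real.log (64 * (Ry z C * Ry z C * (Ry z C * Ry z C))) =
      6 * Real.log 2 + 4 * (C * z) := by
    have e1 : (64 : ℝ) = 2 ^ 6 := by norm_num
    have e2 : Real.log (Ry z C) = C * z := by
      unfold Ry
      exact Real.log_exp _
    rw [Real.log_mul (by norm_num) (by positivity), Real.log_mul (by positivity) (by positivity),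
      Real.log_mul (by positivity) (by positivity), e1, Real.log_pow, e2]
    push_cast
    ring
  rw [h2] at h1
  nlinarith

/-- **(NF)** -/
theorem nf_stmt : NFStmt := by
  classical
  intro n K K' c k0 k1 B C₁ C hB
  refine ⟨n * (12 + 4 * |C|) + |C₁| + (20 + 4 * |C|), by positivity, ?_⟩
  intro D J a₀ w₀ z M w i j r r2 r' r'' y a U lam gam κ h ϖ q E P S ys gs n₀ H hNF hh hh1 hϖ hn₀ hU hU'
  obtain ⟨X, hX⟩ : ∃ X, X = B * U * z := ⟨_, rfl⟩
  rw [← hX] at H ⊢
  have hp := H.ok.isLaw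
  have h0 := hp.nonneg
  have hC0 : 0 ≤ C := by linarith [H.Cg]
  have hRy := Ry_one hC0 z
  have hRg := Rg_eq z C
  have hz := H.z1
  have hz1 : (1 : ℝ) ≤ z := by exact_mod_cast hz
  have hl : Real.log 2 < 0.6931471808 := Real.log_two_lt_d9
  have hl0 : 0 < Real.log 2 := Real.log_pos (by norm_num)
  have hgn : gr gam n n := hn₀ ▸ H.gs_gr n₀
  have hpX : (0 : ℝ) < 2 ^ X := by positivity
  have hiM : i ≤ M := by have := H.i2; omega
  have hjM : j ≤ M := by have := H.j2; omega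
  have hUX : U * z ≤ X := by
    rw [hX]
    calc U * z = 1 * (U * z) := (one_mul _).symm
      _ ≤ B * (U * z) := Nat.mul_le_mul_right _ hB
      _ = B * U * z := (mul_assoc _ _ _).symm
  -- the context
  obtain ⟨W, hW⟩ : ∃ W : D.Ω → ({u : Fin c // u ≠ n₀} → ℤ) × (VT D.Γ c k0 k1 ×
      (TT D.Γ c k0 k1 × ((D.Γ × D.Γ) × ℕ))), W = fun ω =>
      ((fun u : {u : Fin c // u ≠ n₀} => nuv D J w z i j r X C P gs ω u),
          (vv D J w z i j r X C P ys gs ω,
            (tv D J w z i j r X C S ys gs ω, cb D J w i j r ω))) := ⟨_, rfl⟩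
  have hWd : ∀ ω ω', W ω = W ω' → cb D J w i j r ω = cb D J w i j r ω' ∧ D.T ω = D.T ω' ∧
      yv D J w z i j r X C P ys ω = yv D J w z i j r X C P ys ω' ∧
      mv D J w z i j r X C P ys ω = mv D J w z i j r X C P ys ω' ∧
      bev D J w z i j r X C P gs ω = bev D J w z i j r X C P gs ω' ∧
      be2v D J w z i j r X C P gs ω = be2v D J w z i j r X C P gs ω' ∧
      ∀ u, gs u ≠ n → nuv D J w z i j r X C P gs ω u = nuv D J w z i j r X C P gs ω' u := by
    intro ω ω' e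
    rw [hW] at e
    simp only [Prod.mk.injEq] at e
    obtain ⟨e1, e2, e3, e4⟩ := e
    unfold Pool.P5.vv at e2
    unfold tv at e3
    simp only [Prod.mk.injEq] at e2 e3
    refine ⟨e4, e3.2.1, e2.2.1, e2.2.2.1, e2.2.2.2.1, e2.2.2.2.2, fun u hu => ?_⟩
    have := congrFun e1 ⟨u, fun h => hu (by rw [h, hn₀])⟩
    exact this
  have goal : CH q (fun ω => nuv D J w z i j r X C P gs ω n₀) W ≤
      (1 - h / B) * (X : ℕ) * Real.log 2 +
        err (n * (12 + 4 * |C|) + |C₁| + (20 + 4 * |C|)) κ z X (Pb q (fun ω => ¬ E ω)) := by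
    obtain ⟨b, hb⟩ : ∃ b, b = Pb q (fun ω => ¬ E ω) := ⟨_, rfl⟩
    have hb0 : 0 ≤ b := hb ▸ Pb_nonneg h0 _
    have hb1 : b ≤ 1 := by
      have e1 := Pb_not hp.sum_one E
      have e2 := Pb_nonneg h0 E
      rw [hb]
      linarith
    have hbX : b * (3 + X) ≤ 3 + X * b := by nlinarith
    have a1 := CH_le_add h0 (fun ω => nuv D J w z i j r X C P gs ω n₀) (D.nd n i j X) W
    have a2 := CH_le_add h0 (D.nd n i j X) (D.vd n i j X) W
    have a3 : CH q (D.nd n i j X) (fun ω => (D.vd n i j X ω, W ω)) ≤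
        CH q (D.nd n i j X) (fun ω => (D.vd n i j X ω, (D.s i j ω, D.T ω))) := by
      refine CH_mono_cond h0 ?_
      intro ω ω' g1 g2 e
      simp only [Prod.mk.injEq] at e ⊢
      obtain ⟨e1, e2⟩ := e
      obtain ⟨d1, d2, -⟩ := hWd ω ω' e2
      have d3 : D.c i j ω = D.c i j ω' := (Prod.ext_iff.1 (Prod.ext_iff.1 d1).1).1
      exact ⟨e1, H.ok.s_c i hiM j hjM ω ω' g1 g2 (Prod.ext d3 d2), d2⟩
    have a4 := CH_le_add h0 (D.nd n i j X) (D.nd n i j (U * z))
      (fun ω => (D.vd n i j X ω, (D.s i j ω, D.T ω)))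
    have a5 : CH q (D.nd n i j X) (fun ω => (D.nd n i j (U * z) ω,
        (D.vd n i j X ω, (D.s i j ω, D.T ω)))) ≤ ((X - U * z : ℕ) : ℝ) * Real.log 2 := by
      have e1 := CH_one_low hp (D.nd n i j X) (X - U * z)
        (fun ω => (D.vd n i j X ω, (D.s i j ω, D.T ω)))
      have e2 : (fun ω => (D.nd n i j X ω / 2 ^ (X - U * z),
          (D.vd n i j X ω, (D.s i j ω, D.T ω)))) = (fun ω => (D.nd n i j (U * z) ω,
          (D.vd n i j X ω, (D.s i j ω, D.T ω)))) := by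
        funext ω
        have e3 := nd_div D n i j (U * z) (X - U * z) ω
        rw [Nat.add_sub_cancel' hUX] at e3
        rw [e3]
      rw [e2] at e1
      exact e1
    have a6 := CH_le_add h0 (D.nd n i j (U * z)) (D.nd n i j 0)
      (fun ω => (D.vd n i j X ω, (D.s i j ω, D.T ω)))
    have a7 : CH q (D.nd n i j (U * z)) (fun ω => (D.nd n i j 0 ω,
        (D.vd n i j X ω, (D.s i j ω, D.T ω)))) ≤ (1 - h) * (U * z) * Real.log 2 + C₁ * z := by
      have e1 := hNF i hiM j hjM 0 U (by omega) (by push_cast; linarith) (fun _ => True) (by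
        have : Pb q (fun _ : D.Ω => True) = 1 := by
          unfold Pb
          simp only [if_true]
          exact hp.sum_one
        rw [this]
        exact hϖ)
      rw [Pool.P4N.cond_true hp] at e1
      simp only [zero_add, zero_mul] at e1
      have e2 : B * (U * z) = X := by rw [hX, mul_assoc]
      rw [e2] at e1
      exact e1
    have a8 : CH q (D.nd n i j 0) (fun ω => (D.vd n i j X ω, (D.s i j ω, D.T ω))) ≤ 2 := by
      have e1 := CH_le_card h0 hp.sum_one (D.nd n i j 0)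
        (fun ω => (D.vd n i j X ω, (D.s i j ω, D.T ω))) (fun _ => Finset.Icc (-1 : ℤ) 1)
        (fun ω hω => by
          have e2 := sh_bd (H.ok.pos i hiM j hjM ω hω n H.n1 le_rfl) 0
          unfold NDat2.nd
          rw [pow_zero] at e2
          have e3 := abs_le.1 e2
          rw [Finset.mem_Icc]
          constructor
          · exact_mod_cast e3.1
          · exact_mod_cast e3.2)
      refine e1.trans ?_
      rw [Ex_const hp.sum_one]
      have e4 : (Finset.Icc (-1 : ℤ) 1).card = 3 := by decide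
      rw [e4]
      have e5 : Real.log ((3 : ℕ) : ℝ) ≤ Real.log (2 ^ 2) :=
        Real.log_le_log (by norm_num) (by norm_num)
      rw [Real.log_pow] at e5
      push_cast at e5 ⊢
      linarith
    have hnn : ((n - 1 : ℕ) : ℝ) ≤ n := by exact_mod_cast Nat.sub_le n 1
    have b1 : CH q (D.vd n i j X) W ≤ 1 + n * ((5 + 4 * C) * z + (3 + X * b)) := by
      have e1 := few_ev hp E (D.vd n i j X) W (L := 8 * (Ry z C * Rg z C) + 1)
        (Q := 2 ^ X) (by
          rw [hRg]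
          positivity) hpX.le (by
          intro ω ω' g1 g2 hE hE' e l
          obtain ⟨d1, d2, d3, d4, d5, d6, d7⟩ := hWd ω ω' e
          have e2 := sh_near H g1 g2 hE hE' d1 d2 d3 d4 d5 d6 d7 (l := l + 1) (by omega)
            (by have := l.2; omega)
          unfold NDat2.vd
          refine (fl_sub _ _).trans ?_
          rw [pow_add]
          have e3 : (2 : ℝ) ^ D.g i j (l + 1) * 2 ^ X * D.sh i j ω (l + 1) -
              2 ^ D.g i j (l + 1) * 2 ^ X * D.sh i j ω' (l + 1) =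
              2 ^ X * (2 ^ D.g i j (l + 1) * D.sh i j ω (l + 1) -
                2 ^ D.g i j (l + 1) * D.sh i j ω' (l + 1)) := by ring
          rw [e3, abs_mul, abs_of_pos hpX]
          have e4 := mul_le_mul_of_nonneg_left e2 hpX.le
          have e5 : (2 : ℝ) ^ X * (Ry z C * (8 * Rg z C * ((2 : ℝ) ^ X)⁻¹)) =
              8 * (Ry z C * Rg z C) := by
            field_simp
          rw [e5] at e4
          linarith) (by
          intro ω hω l
          exact sh_bd (H.ok.pos i hiM j hjM ω hω (l + 1) (by omega)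
            (by have := l.2; omega)) X)
      refine e1.trans ?_
      have e2 := log64' hC0 hz (t := 2 * (8 * (Ry z C * Rg z C) + 1) + 1) (by
        rw [hRg]
        positivity) (by
        rw [hRg]
        have h5 : 1 ≤ Ry z C * Ry z C := by nlinarith only [hRy]
        have h6 : 1 ≤ Ry z C * Ry z C * (Ry z C * Ry z C) := by nlinarith only [h5]
        nlinarith only [h6])
      have e3 := log_4X X
      rw [← hb]
      have e4 : b * Real.log (4 * 2 ^ X + 1) ≤ 3 + X * b :=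
        (mul_le_mul_of_nonneg_left e3 hb0).trans hbX
      have e5 : 0 ≤ (5 + 4 * C) * z + (3 + X * b) := by positivity
      have e6 : ((n - 1 : ℕ) : ℝ) * (Real.log (2 * (8 * (Ry z C * Rg z C) + 1) + 1) +
          b * Real.log (4 * 2 ^ X + 1)) ≤ n * ((5 + 4 * C) * z + (3 + X * b)) :=
        (mul_le_mul_of_nonneg_left (by linarith) (Nat.cast_nonneg _)).trans
          (mul_le_mul_of_nonneg_right hnn e5)
      linarith
    have b2 : CH q (fun ω => nuv D J w z i j r X C P gs ω n₀)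
        (fun ω => (D.nd n i j X ω, W ω)) ≤ 1 + ((5 + 4 * C) * z + (3 + X * b)) := by
      have e0 : CH q (fun ω => nuv D J w z i j r X C P gs ω n₀)
          (fun ω => (D.nd n i j X ω, W ω)) ≤
          CH q (fun ω (_ : Fin 1) => nuv D J w z i j r X C P gs ω n₀)
          (fun ω => (D.nd n i j X ω, W ω)) := by
        refine CH_mono_left h0 ?_
        intro ω ω' _ _ e
        simp only [Prod.mk.injEq] at e
        exact congrFun e.1 0
      have e1 := few_ev hp E (fun ω (_ : Fin 1) => nuv D J w z i j r X C P gs ω n₀)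
        (fun ω => (D.nd n i j X ω, W ω)) (L := 16 * (Ry z C * Ry z C)) (Q := 2 ^ X)
        (by positivity) hpX.le (by
          intro ω ω' g1 g2 hE hE' e _
          simp only [Prod.mk.injEq] at e
          obtain ⟨d1, d2, d3, d4, d5, d6, d7⟩ := hWd ω ω' e.2
          exact nu_near H g1 g2 hE hE' d1 d2 d3 d4 d5 d6 d7 hn₀ e.1) (by
          intro ω _ _
          exact dg_bd _ _)
      refine e0.trans (e1.trans ?_)
      have e2 := log64' hC0 hz (t := 2 * (16 * (Ry z C * Ry z C)) + 1) (by positivity) (by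
        have h5 : 1 ≤ Ry z C * Ry z C := by nlinarith only [hRy]
        have h6 : Ry z C * Ry z C ≤ Ry z C * Ry z C * (Ry z C * Ry z C) := by
          nlinarith only [h5]
        nlinarith only [h5, h6])
      have e3 := log_4X X
      rw [← hb]
      have e4 : b * Real.log (4 * 2 ^ X + 1) ≤ 3 + X * b :=
        (mul_le_mul_of_nonneg_left e3 hb0).trans hbX
      push_cast
      linarith
    -- the numbers
    have hsub : ((X - U * z : ℕ) : ℝ) = X - U * z := by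
      rw [Nat.cast_sub hUX]
      push_cast
      ring
    rw [hsub] at a5
    have hBr : (1 : ℝ) ≤ B := by exact_mod_cast hB
    have hXr : (X : ℝ) = B * (U * z) := by
      rw [hX]
      push_cast
      ring
    have hmain : (1 - h) * (U * z) * Real.log 2 + ((X : ℝ) - U * z) * Real.log 2 =
        (1 - h / B) * (X : ℝ) * Real.log 2 := by
      rw [hXr]
      field_simp
      ring
    have hκ := H.κ0
    have hCC := le_abs_self C
    have hCC1 := le_abs_self C₁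
    have hn0 : (0 : ℝ) ≤ n := Nat.cast_nonneg n
    have hn1 : (1 : ℝ) ≤ n := by exact_mod_cast H.n1
    unfold err
    rw [← hb]
    have hXb : 0 ≤ (X : ℝ) * b := by positivity
    obtain ⟨Ca, hCa⟩ : ∃ Ca, Ca = |C| := ⟨_, rfl⟩
    obtain ⟨Cb, hCb⟩ : ∃ Cb, Cb = |C₁| := ⟨_, rfl⟩
    have hCa0 : 0 ≤ Ca := hCa ▸ abs_nonneg _
    have hCb0 : 0 ≤ Cb := hCb ▸ abs_nonneg _
    rw [← hCa, ← hCb]
    rw [← hCa] at hCC
    rw [← hCb] at hCC1
    obtain ⟨t, ht⟩ : ∃ t : ℝ, t = z + X * b := ⟨_, rfl⟩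
    have ht1 : 1 ≤ t := by linarith
    have hzt : (z : ℝ) ≤ t := by linarith
    have c1 : (5 + 4 * C) * z + (3 + X * b) ≤ (8 + 4 * Ca) * t := by
      rw [ht]
      have e1 : C * z ≤ Ca * z := mul_le_mul_of_nonneg_right hCC (by linarith)
      have e2 : 0 ≤ Ca * (X * b) := by positivity
      nlinarith only [e1, e2, hz1, hXb]
    have c2 : (n : ℝ) * ((5 + 4 * C) * z + (3 + X * b)) ≤ n * ((8 + 4 * Ca) * t) :=
      mul_le_mul_of_nonneg_left c1 hn0
    have c3 : C₁ * z ≤ Cb * t := (mul_le_mul_of_nonneg_right hCC1 (by linarith)).trans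
      (mul_le_mul_of_nonneg_left hzt hCb0)
    have c4 : ((n : ℝ) * (12 + 4 * Ca) + Cb + (20 + 4 * Ca)) * t ≤
        ((n : ℝ) * (12 + 4 * Ca) + Cb + (20 + 4 * Ca)) * ((1 + κ) * z + X * b) := by
      refine mul_le_mul_of_nonneg_left ?_ (by positivity)
      rw [ht]
      have : 0 ≤ κ * z := by positivity
      linarith
    have c5 : 1 + n * ((8 + 4 * Ca) * t) + (1 + (8 + 4 * Ca) * t) + Cb * t + 2 ≤
        ((n : ℝ) * (12 + 4 * Ca) + Cb + (20 + 4 * Ca)) * t := by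
      have : 0 ≤ (n : ℝ) * t := by positivity
      nlinarith only [this, ht1]
    linarith
  rw [hW] at goal
  exact goal

end Pool.P5N
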