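import Pool.Agent.H38.P4.Nea
import Pool.Agent.H38.P4.Cld
import Pool.Agent.H12.P5.Stm

/-!
# The close systems of a place of a cell with the slopes `0, 1, 2`
-/

set_option autoImplicit false

namespace Pool.P5O

open Finset Real MvPolynomial
open Pool.Agent.H49.Ent Pool.Agent.H32.Dense Pool.STK Pool.STAT Pool.MIC.Frm Pool.MIC7 Pool.FRM
open Pool.GSD Pool.P5 Pool.P4O
open Pool.P4 (t0 rt pp PthC FraC bb ze zt z0 be GoodS FrP)

/-- The levels of a place. -/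
theorem levels {D : NDat2} {n K J a₀ w₀ z M : ℕ} {lam gam : ℕ → ℝ} {κ C₁ : ℝ} {q : D.Ω → ℝ}
    {y r r2 r' r'' aa i j c : ℕ} (hC₁ : 1 ≤ C₁) (hc : 4 * C₁ ≤ c)
    (hlam : ∀ l, 1 ≤ l → l ≤ n → lam l = 1) (hpl : Plc n gam y r r2 r' r'' aa M i j)
    (hO : D.Ok2 n K J a₀ w₀ z M lam gam κ C₁ q) :
    Lv n (D.g i j) (D.g 0 j) (2 ^ (i * z)) (exp z ^ c) ∧
    (∀ l, 1 ≤ l → l ≤ n → sl gam n l →
      (2 : ℝ) ^ D.g (i - r') (j + r) l ≤ exp z ^ c * 2 ^ D.g i j l) ∧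
    (∀ l, 1 ≤ l → l ≤ n → ¬ sl gam n l →
      (2 : ℝ) ^ (y * z) * 2 ^ D.g i j l ≤ exp z ^ c * 2 ^ D.g (i - r') (j + r) l) ∧
    ∀ u m, 1 ≤ u → u ≤ n → ¬ sl gam n u → 1 ≤ m → m ≤ n → sl gam n m →
      (2 : ℝ) ^ D.g i j u / 2 ^ D.g (i - r'') (j + r) u *
        (2 ^ D.g (i - r'') (j + r) m / 2 ^ D.g i j m) ≤ exp z ^ c / 2 ^ (y * z) := by
  have z0 : (0 : ℝ) ≤ z := Nat.cast_nonneg z
  have hst := hpl.stp
  have i1 := hpl.i1
  have i2 := hpl.i2
  have j1 := hpl.j1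
  have j2 := hpl.j2
  have s5 := hst.s5
  have hg : ∀ i' ≤ M, ∀ j' ≤ M, ∀ l, 1 ≤ l → l ≤ n →
      |(D.g i' j' l : ℝ) - D.g 0 0 l - ((i' : ℝ) + gam l * j') * z| ≤ C₁ * z := by
    intro i' hi' j' hj' l hl1 hln
    have := hO.hom i' hi' j' hj' l hl1 hln
    rw [hlam l hl1 hln, one_mul] at this
    exact this
  have ce : ∀ x : ℝ, x ≤ 4 * C₁ * z → exp x ≤ exp z ^ c := fun x hx =>
    (Real.exp_le_exp.2 hx).trans (exp_pow z hc)
  have hb : 2 * C₁ * z ≤ 4 * C₁ * z := by nlinarith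
  have hgr : ∀ l, 1 ≤ l → l ≤ n → ¬ sl gam n l → gr gam n l := by
    intro l hl1 hln hs
    refine ⟨hl1, hln, ?_⟩
    by_contra h
    push Not at h
    rcases Nat.lt_or_ge l n with h1 | h1
    · exact hs ⟨hl1, h1, h⟩
    · have h2 : l = n := by omega
      subst h2
      exact absurd h (lt_irrefl _)
  refine ⟨fun m hm1 hmn => ⟨?_, ?_⟩, fun l hl1 hln hs => ?_, fun l hl1 hln hs => ?_,
    fun u m hu1 hun hSu hm1 hmn hSm => ?_⟩
  · have e1 := hg i (by omega) j (by omega) m hm1 hmn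
    have e2 := hg 0 (by omega) j (by omega) m hm1 hmn
    rw [abs_le] at e1 e2
    push_cast at e2
    have e3 := lev_le (p := D.g i j m) (q := D.g 0 j m + i * z) (s := 2 * C₁ * z)
      (by push_cast; nlinarith [e1.2, e2.1]) (by positivity)
    refine e3.trans ?_
    rw [pow_add]
    calc exp (2 * C₁ * z) * (2 ^ D.g 0 j m * 2 ^ (i * z))
        ≤ exp z ^ c * (2 ^ D.g 0 j m * 2 ^ (i * z)) :=
          mul_le_mul_of_nonneg_right (ce _ hb) (by positivity)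
      _ = _ := by ring
  · have e1 := hg i (by omega) j (by omega) m hm1 hmn
    have e2 := hg 0 (by omega) j (by omega) m hm1 hmn
    rw [abs_le] at e1 e2
    push_cast at e2
    have e3 := lev_le (p := i * z + D.g 0 j m) (q := D.g i j m) (s := 2 * C₁ * z)
      (by push_cast; nlinarith [e1.1, e2.2]) (by positivity)
    rw [pow_add] at e3
    exact e3.trans (mul_le_mul_of_nonneg_right (ce _ hb) (by positivity))
  · have e1 := hg i (by omega) j (by omega) l hl1 hln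
    have e2 := hg (i - r') (by omega) (j + r) (by omega) l hl1 hln
    rw [abs_le] at e1 e2
    have h1 := hst.s1 hs
    have c1 : ((i - r' : ℕ) : ℝ) = (i : ℝ) - r' := by
      rw [Nat.cast_sub (by omega)]
    have c2 : ((j + r : ℕ) : ℝ) = (j : ℝ) + r := by push_cast; ring
    rw [c1, c2] at e2
    have y0 : (0 : ℝ) ≤ y := Nat.cast_nonneg y
    have e4 : (gam l * r - r') * z ≤ 0 := mul_nonpos_of_nonpos_of_nonneg (by linarith) z0
    have e3 := lev_le (p := D.g (i - r') (j + r) l) (q := D.g i j l) (s := 2 * C₁ * z)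
      (by nlinarith [e1.1, e2.2]) (by positivity)
    exact e3.trans (mul_le_mul_of_nonneg_right (ce _ hb) (by positivity))
  · have hl := hgr l hl1 hln hs
    have e1 := hg i (by omega) j (by omega) l hl1 hln
    have e2 := hg (i - r') (by omega) (j + r) (by omega) l hl1 hln
    rw [abs_le] at e1 e2
    have h1 := hst.s2 hl
    have c1 : ((i - r' : ℕ) : ℝ) = (i : ℝ) - r' := by
      rw [Nat.cast_sub (by omega)]
    have c2 : ((j + r : ℕ) : ℝ) = (j : ℝ) + r := by push_cast; ring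
    rw [c1, c2] at e2
    have e4 : (r' + y) * (z : ℝ) ≤ (gam l * r) * z := mul_le_mul_of_nonneg_right h1 z0
    have e3 := lev_le (p := y * z + D.g i j l) (q := D.g (i - r') (j + r) l) (s := 2 * C₁ * z)
      (by push_cast; nlinarith [e1.2, e2.1]) (by positivity)
    rw [pow_add] at e3
    exact e3.trans (mul_le_mul_of_nonneg_right (ce _ hb) (by positivity))
  · have hu := hgr u hu1 hun hSu
    have e1 := hg i (by omega) j (by omega) u hu1 hun
    have e2 := hg (i - r'') (by omega) (j + r) (by omega) u hu1 hun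
    have e3 := hg i (by omega) j (by omega) m hm1 hmn
    have e4 := hg (i - r'') (by omega) (j + r) (by omega) m hm1 hmn
    rw [abs_le] at e1 e2 e3 e4
    have h1 := hst.s2 hu
    have h2 := hst.s1 hSm
    have c1 : ((i - r'' : ℕ) : ℝ) = (i : ℝ) - r'' := by
      rw [Nat.cast_sub (by omega)]
    have c2 : ((j + r : ℕ) : ℝ) = (j : ℝ) + r := by push_cast; ring
    rw [c1, c2] at e2 e4
    have f1 : (r' + y) * (z : ℝ) ≤ (gam u * r) * z := mul_le_mul_of_nonneg_right h1 z0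
    have f2 : (gam m * r + y) * (z : ℝ) ≤ r' * z := mul_le_mul_of_nonneg_right h2 z0
    have f3 : (0 : ℝ) ≤ y * z := by positivity
    have e5 := lev_le (p := y * z + D.g i j u + D.g (i - r'') (j + r) m)
      (q := D.g (i - r'') (j + r) u + D.g i j m) (s := 4 * C₁ * z)
      (by push_cast; nlinarith [e1.2, e2.1, e3.1, e4.2]) (by positivity)
    rw [pow_add, pow_add, pow_add] at e5
    rw [le_div_iff₀ (by positivity), div_mul_div_comm, div_mul_eq_mul_div,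
      div_le_iff₀ (by positivity)]
    calc (2 : ℝ) ^ D.g i j u * 2 ^ D.g (i - r'') (j + r) m * 2 ^ (y * z)
        = 2 ^ (y * z) * 2 ^ D.g i j u * 2 ^ D.g (i - r'') (j + r) m := by ring
      _ ≤ exp (4 * C₁ * z) * (2 ^ D.g (i - r'') (j + r) u * 2 ^ D.g i j m) := e5
      _ ≤ exp z ^ c * (2 ^ D.g (i - r'') (j + r) u * 2 ^ D.g i j m) :=
          mul_le_mul_of_nonneg_right (ce _ le_rfl) (by positivity)

/-- **The close systems of a place.** -/
theorem mk_cel (n K K' : ℕ) (C₁ C : ℝ) (hC₁ : 1 ≤ C₁) (hC : 0 ≤ C) : ∃ (a : ℕ) (c₀ : ℝ), 1 ≤ a ∧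
    ∀ (lam gam : ℕ → ℝ) (y r r2 r' r'' aa M J a₀ w₀ z i j : ℕ) (D : NDat2) (q : D.Ω → ℝ) (κ : ℝ)
      (P V : ℕ → PN) (ω : D.Ω), (∀ l, 1 ≤ l → l ≤ n → lam l = 1) → c₀ ≤ exp z →
      Plc n gam y r r2 r' r'' aa M i j → D.Ok2 n K J a₀ w₀ z M lam gam κ C₁ q → 0 < q ω →
      (TriN V ∧ (∀ l, (V l).totalDegree ≤ K') ∧ (∀ l ≤ n, eval (D.X ω) (V l) = D.X ω l) ∧
        ∀ i < M, ∀ j < M, ∀ l ≤ n, nrm (D.g i j) (1 / 2) (chr V (fr D (i, j) ω l - V l)) ≤
          exp (C * z) / 2 ^ D.g i j l) →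
      FrP D n K' z i j r C P ω →
      Cel n (max K K') a (exp z) (D.X ω 0) (2 ^ (i * z)) (2 ^ (y * z)) (D.g i j) (D.g 0 j)
        (D.g (i - r') (j + r)) (D.g (i - r'') (j + r)) (sl gam n) (fz (D.X ω 0) P)
        (fz (D.X ω 0) V) (fr D (i - r', j + r) ω) (fr D (i - r'', j + r) ω) (D.X ω) := by
  obtain ⟨KK, hKK⟩ : ∃ KK : ℕ, KK = max K K' := ⟨_, rfl⟩
  have hK1 : K ≤ KK := by rw [hKK]; exact le_max_left _ _
  have hK2 : K' ≤ KK := by rw [hKK]; exact le_max_right _ _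
  obtain ⟨c, hc⟩ := exists_nat_ge C
  obtain ⟨c4, hc4⟩ := exists_nat_ge (4 * C₁)
  obtain ⟨aP, cP, h1⟩ := cls_P n KK c
  obtain ⟨aV, h2⟩ := cls_V n KK c
  obtain ⟨aS, cS, h3⟩ := cls_sym n KK aP
  obtain ⟨aT, cT, h4⟩ := cls_trans n KK aS
  obtain ⟨aW, cW, h5⟩ := cls_sym n KK aV
  obtain ⟨aN, cN, h6⟩ := cls_nbr n KK (aT + aW)
  refine ⟨aN + aV + c4 + aS + 1, max (max (max cP cS) (max cT cW)) (max cN 2), by omega, ?_⟩
  intro lam gam y r r2 r' r'' aa M J a₀ w₀ z i j D q κ P V ω hlam hc₀ hpl hO hω hV hP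
  rw [← hKK]
  obtain ⟨hcA, hcB⟩ := max_le_iff.1 hc₀
  obtain ⟨hcA1, hcA2⟩ := max_le_iff.1 hcA
  obtain ⟨hcP, hcS⟩ := max_le_iff.1 hcA1
  obtain ⟨hcT, hcW⟩ := max_le_iff.1 hcA2
  obtain ⟨hcN, hc2⟩ := max_le_iff.1 hcB
  have hE : 1 ≤ exp (z : ℝ) := Real.one_le_exp (Nat.cast_nonneg z)
  have i1 := hpl.i1
  have i2 := hpl.i2
  have j1 := hpl.j1
  have j2 := hpl.j2
  have s5 := hpl.stp.s5
  have a1 := hpl.a1
  have s6 := hpl.stp.ya
  obtain ⟨tV, dV, xV, nV⟩ := hV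
  obtain ⟨tP, dP, nP⟩ := hP
  obtain ⟨t, ht⟩ : ∃ t : ℝ, t = D.X ω 0 := ⟨_, rfl⟩
  have syP : Sy KK (D.X ω 0) (fz (D.X ω 0) P) := sy_fz tP (fun l => (dP l).trans hK2) _
  have syV : Sy KK (D.X ω 0) (fz (D.X ω 0) V) := sy_fz tV (fun l => (dV l).trans hK2) _
  have syR : ∀ i' j', Sy KK (D.X ω 0) (fr D (i', j') ω) := fun i' j' =>
    sy_fz (hO.G_tri i' j' _) (fun l => (hO.G_deg i' j' _ l).trans hK1) _
  have syF : ∀ i' j', Sy KK (D.X ω 0) (fz (D.X ω 0) (D.Φ i' j' ω)) := fun i' j' =>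
    sy_fz (hO.P_tri i' j' _) (fun l => (hO.P_deg i' j' _ l).trans hK1) _
  have m : ∀ {b : ℕ}, b ≤ aN + aV + c4 + aS + 1 → exp (z : ℝ) ^ b ≤
      exp z ^ (aN + aV + c4 + aS + 1) := fun h => pw hE h
  -- the own frame
  have hVR : ∀ i' < M, ∀ j' < M,
      Cls n (D.g i' j') (exp z ^ aV) (fz (D.X ω 0) V) (fr D (i', j') ω) :=
    h2 D M z C ω V hc (fun i j x l => (hO.G_deg i j x l).trans hK1) hO.G_tri tV
      (fun l => (dV l).trans hK2) xV nV
  -- the closed frame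
  have hPF : ∀ i' ≤ i, Cls n (D.g i' j) (exp z ^ aP) (fz (D.X ω 0) P)
      (fz (D.X ω 0) (D.Φ i' j ω)) := fun i' hi' =>
    h1 D K J a₀ w₀ z M lam gam κ C₁ C q ω P i' j hK1 hcP hc hC hO hω (by omega) (by omega)
      tP (fun l => (dP l).trans hK2) (fun l hl => (nP i' hi' l hl).1)
  have hFP : ∀ i' ≤ i, Cls n (D.g i' j) (exp z ^ aS) (fz (D.X ω 0) (D.Φ i' j ω))
      (fz (D.X ω 0) P) := fun i' hi' =>
    h3 _ _ _ _ _ hE hcS syP (syF i' j) (hPF i' hi')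
  have hRP : ∀ i' ≤ i, Cls n (D.g i' j) (exp z ^ aT) (fr D (i', j) ω) (fz (D.X ω 0) P) :=
    fun i' hi' => h4 _ _ _ _ _ _ hE hcT (syR i' j) (syF i' j) syP
      ((cls_fr hO (by omega) (by omega) hω).mono (pw1 hE aS)) (hFP i' hi')
  have hRV : ∀ i' ≤ i, Cls n (D.g i' j) (exp z ^ aW) (fr D (i', j) ω) (fz (D.X ω 0) V) :=
    fun i' hi' => h5 _ _ _ _ _ hE hcW syV (syR i' j) (hVR i' (by omega) j (by omega))
  have hPV : ∀ i' ≤ i, Cls n (D.g i' j) (exp z ^ aN) (fz (D.X ω 0) P) (fz (D.X ω 0) V) :=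
    fun i' hi' => h6 _ _ _ _ _ _ hE hcN (syR i' j) syP syV
      ((hRP i' hi').mono (pw hE (by omega))) ((hRV i' hi').mono (pw hE (by omega)))
  -- levels
  obtain ⟨l1, l2, l3, l4⟩ := levels (c := c4) hC₁ hc4 hlam hpl hO
  refine ⟨syP, syV, syR _ _, syR _ _, (hPV i le_rfl).mono (m (by omega)),
    (hPV 0 (Nat.zero_le _)).mono (m (by omega)), (hVR _ (by omega) _ (by omega)).mono
    (m (by omega)), (hVR _ (by omega) _ (by omega)).mono (m (by omega)),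
    l1.mono (by positivity) (m (by omega)), one_le_pow₀ (by norm_num),
    pow_le_pow_right₀ (by norm_num) (Nat.mul_le_mul_right _ (by omega)),
    fun l h7 h8 h9 => (l2 l h7 h8 h9).trans (mul_le_mul_of_nonneg_right (m (by omega))
      (by positivity)), fun l h7 h8 h9 => (l3 l h7 h8 h9).trans
      (mul_le_mul_of_nonneg_right (m (by omega)) (by positivity)),
    fun u k h7 h8 h9 h10 h11 h12 => (l4 u k h7 h8 h9 h10 h11 h12).trans
      (div_le_div_of_nonneg_right (m (by omega)) (by positivity)), rfl, fun l hl1 hln => ?_,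
    fun l hl1 hln => ?_, fun l hl => ⟨hl.1, hl.2.1⟩⟩
  · -- the own point over the closed frame
    have hbx : ∀ k < l, |nat (D.g i j) (fz (D.X ω 0) (D.Φ i j ω)) (D.X ω) k| ≤ 1 := by
      intro k hk
      rcases Nat.eq_zero_or_pos k with h7 | h7
      · rw [h7, nat_fz_zero, sub_self, mul_zero, abs_zero]
        exact zero_le_one
      · rw [nat_fz' _ _ rfl h7]
        have h8 := hO.hgt i (by omega) j (by omega) ω hω k (by omega)
        unfold NDat2.rh at h8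
        unfold nat
        rw [abs_mul, abs_of_pos (by positivity)]
        rwa [le_div_iff₀ (by positivity), mul_comm] at h8
    have e1 := hFP i le_rfl l hl1 hln (D.X ω) hbx
    have e2 := hO.hgt i (by omega) j (by omega) ω hω l hln
    unfold NDat2.rh at e2
    rw [← eval_fz' (D.Φ i j ω) rfl hl1] at e2
    have pg : (0 : ℝ) < 2 ^ D.g i j l := by positivity
    unfold nat
    rw [abs_mul, abs_of_pos pg]
    have e3 : D.X ω l - eval (D.X ω) (fz (D.X ω 0) P l) =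
        (D.X ω l - eval (D.X ω) (fz (D.X ω 0) (D.Φ i j ω) l)) +
        (eval (D.X ω) (fz (D.X ω 0) (D.Φ i j ω) l) - eval (D.X ω) (fz (D.X ω 0) P l)) := by ring
    have e4 := (abs_add_le _ _).trans (add_le_add e2 e1)
    rw [← e3, ← add_div, le_div_iff₀ pg] at e4
    have e5 : (1 : ℝ) ≤ exp z ^ aS := pw1 hE aS
    calc 2 ^ D.g i j l * |D.X ω l - eval (D.X ω) (fz (D.X ω 0) P l)|
        ≤ 1 + exp z ^ aS := by linarith
      _ ≤ exp z ^ aS * exp z := by nlinarith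
      _ = exp z ^ (aS + 1) := (pow_succ _ _).symm
      _ ≤ _ := m (by omega)
  · rw [eval_fz' V rfl hl1, xV l hln]

end Pool.P5O
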