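import Pool.Agent.H25.P5.Bas
import Pool.Agent.H70.P4.Dch

/-!
# The visible chart (P5)

The chart `Dch`, the record `rcd`, the coordinates `zdv` and the digits `yD` are those of P4. The
digits of the group are in the units of P5.
-/

set_option autoImplicit false

namespace Pool.P5

open Finset Real
open Pool.Agent.H49.Ent Pool.Agent.H32.Dense Pool.STK Pool.STAT Pool.MIC.Frm
open Pool.P4 (t0 rt pp PthC FraC bb ze zt z0 be cl1 dg dgp Ry cb LLC tq GoodS FrP err Dch yD rcd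
  zdv)

/-- The heights of the group over the visible frame. -/
noncomputable def nuD {D : NDat2} {c : ℕ} (z X : ℕ) (C : ℝ) (zd : D.Ω → ℕ → ℝ) (gs : Fin c → ℕ)
    (ω : D.Ω) (u : Fin c) : ℤ := dg X (zd ω (gs u) / Rg z C)

/-- The visible chart, from the hypotheses of the entropic pieces. -/
theorem Hyp.dch (n K K' : ℕ) (C : ℝ) (hC : 0 ≤ C) : ∃ Cd : ℝ, 1 ≤ Cd ∧ C ≤ Cd ∧
    ∀ (D : NDat2) (J a₀ w₀ z M w i j r r2 r' r'' y a X : ℕ) (lam gam : ℕ → ℝ) (κ C₁ : ℝ)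
      (q : D.Ω → ℝ) (E : D.Ω → Prop) (P : D.Γ × D.Γ → ℕ → PN) (S : Slo D) (c k0 k1 : ℕ)
      (ys : Fin (k0 + k1) → ℕ) (gs : Fin c → ℕ) (b : ℕ),
      Hyp D n K K' J a₀ w₀ z M w i j r r2 r' r'' y a X lam gam κ C₁ C q E P S ys gs →
      Dch D n z i j r X Cd q E P (rcd D i j r b) (zdv D i j r b E P) := by
  obtain ⟨Cd, h1, h2, h⟩ := Pool.P4.dch n (max K K') C hC
  refine ⟨Cd, h1, h2, ?_⟩
  intro D J a₀ w₀ z M w i j r r2 r' r'' y a X lam gam κ C₁ q E P S c k0 k1 ys gs b hy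
  exact h D K K' J a₀ w₀ z M i j r b X lam gam κ C₁ q E P hy.ok (le_max_left _ _)
    (le_max_right _ _) hy.z1 (by have := hy.i2; omega) (by have := hy.j2; omega)
    fun ω hω => ⟨(hy.gd ω hω).1, (hy.gd ω hω).2.2⟩

end Pool.P5
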