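import Pool.Agent.H98.P5.NFv
import Pool.Agent.H98.P4.HF

/-!
# The visible near point is almost independent of the context (P5; the field `hF` of `VCh`)

From the upper bound (`NF`: the target given the visible labels and the time) and the lower bounds
given the closed contexts (`LLC`, `NFc`).
-/

set_option autoImplicit false

namespace Pool.P5N

open Finset Real
open Pool.Agent.H49.Ent Pool.Agent.H32.Dense Pool.STK Pool.STAT Pool.MIC Pool.P5
open Pool.MIC.Frm Pool.MIC7 Pool.POT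
open Pool.BFL (Pb)
open Pool.P4 (t0 rt pp PthC FraC bb ze zt z0 be cl1 dg dgp Ry cb LLC tq GoodS FrP err Dch yD rcd
  zdv aE aE_nonneg few_exp few_exp0 div_lipR div_absR mul_expz two_pow_exp floor_near c_up le_expz)
open Pool.P4N (Ry_one dg_eq dg_sub dgp_eq dg_bd rt_bd rt_T fl_eq fl_sub few_ev CH_one_low
  nd_div sh_bd log_4X DchX dch_x dch_mono dch_near dgp_lipR CH_ball vd_le)

section

variable {D : NDat2} {n K K' J a₀ w₀ z M w i j r r2 r' r'' y a X : ℕ} {lam gam : ℕ → ℝ}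
  {κ C₁ C : ℝ} {q : D.Ω → ℝ} {E : D.Ω → Prop} {P : D.Γ × D.Γ → ℕ → PN}
  {S : Slo D} {c k0 k1 : ℕ} {ys : Fin (k0 + k1) → ℕ} {gs : Fin c → ℕ}
  {Sg σ : Type} {s : D.Ω → Sg} {zd : D.Ω → ℕ → ℝ} {Cd A₀ : ℝ}
  {N : D.Ω → Fin c → ℤ} {Y : D.Ω → Fin (k0 + k1) → ℤ} {Sv : D.Ω → σ}
  (H : Hyp D n K K' J a₀ w₀ z M w i j r r2 r' r'' y a X lam gam κ C₁ C q E P S ys gs)
  (G : DchX D n z i j r X Cd q E P s zd) (V : VisD D z X Cd A₀ q E ys gs s zd N Y Sv)
  (hCd : 0 ≤ Cd)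

include H G V hCd

omit hCd in
/-- Equal digits of the heights over the visible labels. -/
theorem zd_of_dig {ω ω' : D.Ω} (h1 : 0 < q ω) (h2 : 0 < q ω') (hE : E ω) (hE' : E ω')
    (hS : Sv ω = Sv ω') (hv : D.vd n i j X ω = D.vd n i j X ω')
    (hn : D.nd n i j X ω = D.nd n i j X ω') {l : ℕ} (hl1 : 1 ≤ l) (hln : l ≤ n) :
    |zd ω l - zd ω' l| ≤ Ry z Cd * ((2 : ℝ) ^ X)⁻¹ := by
  have hp : (0 : ℝ) < 2 ^ X := by positivity
  refine G.ofS ω ω' h1 h2 hE hE' (V.dS ω ω' h1 h2 hS) l hl1 hln _ le_rfl fun k' hk1 hkl => ?_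
  have e1 : |(2 : ℝ) ^ (D.g i j k' + X) * D.sh i j ω k' -
      2 ^ (D.g i j k' + X) * D.sh i j ω' k'| ≤ 1 := by
    rcases lt_or_eq_of_le (hkl.trans hln) with hk | hk
    · have h3 := congrFun hv ⟨k' - 1, by omega⟩
      unfold NDat2.vd at h3
      simp only at h3
      rw [show k' - 1 + 1 = k' by omega] at h3
      exact fl_eq h3
    · subst hk
      unfold NDat2.nd at hn
      exact fl_eq hn
  rw [pow_add] at e1
  have e2 : (2 : ℝ) ^ D.g i j k' * 2 ^ X * D.sh i j ω k' -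
      2 ^ D.g i j k' * 2 ^ X * D.sh i j ω' k' =
      2 ^ X * (2 ^ D.g i j k' * D.sh i j ω k' - 2 ^ D.g i j k' * D.sh i j ω' k') := by ring
  rw [e2, abs_mul, abs_of_pos hp] at e1
  rw [← one_div, le_div_iff₀ hp]
  linarith

/-- **The visible digits from the digits over the visible labels.** -/
theorem few_YN {S' : Type} (B : D.Ω → S') (hA : 0 ≤ A₀) :
    CH q (fun ω => (Y ω, N ω))
      (fun ω => (B ω, ((D.vd n i j X ω, D.nd n i j X ω), Sv ω))) ≤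
      (aE (k0 + k1) (2 + A₀) + aE c (2 + A₀)) * (z + X * Pb q (fun ω => ¬ E ω)) := by
  have hz := H.z1
  have z1 : (1 : ℝ) ≤ z := by exact_mod_cast hz
  have x0 : (0 : ℝ) ≤ X := Nat.cast_nonneg X
  have h0 := H.ok.isLaw.nonneg
  have hpX : (0 : ℝ) < 2 ^ X := by positivity
  have hpi : (2 : ℝ) ^ X * ((2 : ℝ) ^ X)⁻¹ = 1 := mul_inv_cancel₀ hpX.ne'
  obtain ⟨hRy, hRg1, hRg0, hRg⟩ := ry_rg hCd z
  have e2 : (2 : ℝ) ≤ exp ((2 + A₀) * z) := by
    have h1 := le_expz (a := 2) (by norm_num) hz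
    exact h1.trans (Real.exp_le_exp.mpr (by nlinarith))
  have bd : exp (A₀ * (z + X)) ≤ exp ((2 + A₀) * (z + X)) := by
    refine Real.exp_le_exp.mpr ?_
    nlinarith
  have k1 := few_exp0 H.ok.isLaw Y
    (fun ω => (N ω, (B ω, ((D.vd n i j X ω, D.nd n i j X ω), Sv ω)))) E (A := 2 + A₀) (X := X)
    (by positivity) hz (by
      intro ω ω' hω hω' hE hE' e b
      have f1 := (Prod.ext_iff.mp (Prod.ext_iff.mp (Prod.ext_iff.mp e).2).2)
      have f2 := Prod.ext_iff.mp f1.1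
      have ha := H.ys_n b
      have g1 := zd_of_dig H G V hω hω' hE hE' f1.2 f2.1 f2.2 ha.1 ha.2
      have hR2 : 0 < 2 * Ry z Cd := by linarith
      rw [V.yY ω hω hE, V.yY ω' hω' hE']
      unfold yD
      have g2 := dgp_lipR (X := X) ((zd ω (ys b) + Ry z Cd) / (2 * Ry z Cd))
        ((zd ω' (ys b) + Ry z Cd) / (2 * Ry z Cd))
      have g3 : (zd ω (ys b) + Ry z Cd) / (2 * Ry z Cd) -
          (zd ω' (ys b) + Ry z Cd) / (2 * Ry z Cd)
          = (zd ω (ys b) - zd ω' (ys b)) / (2 * Ry z Cd) := by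
        rw [← sub_div]
        congr 1
        ring
      rw [g3, abs_div, abs_of_pos hR2] at g2
      have g4 : (2 : ℝ) ^ X * (|zd ω (ys b) - zd ω' (ys b)| / (2 * Ry z Cd)) ≤ 1 := by
        rw [← mul_div_assoc, div_le_one hR2]
        calc (2 : ℝ) ^ X * |zd ω (ys b) - zd ω' (ys b)| ≤
            2 ^ X * (Ry z Cd * ((2 : ℝ) ^ X)⁻¹) := mul_le_mul_of_nonneg_left g1 hpX.le
          _ = (2 ^ X * ((2 : ℝ) ^ X)⁻¹) * Ry z Cd := by ring
          _ ≤ 2 * Ry z Cd := by rw [hpi]; linarith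
      linarith) (by
      intro ω hω b
      exact (V.yB ω hω b).trans bd)
  have k2 := few_exp0 H.ok.isLaw N
    (fun ω => (B ω, ((D.vd n i j X ω, D.nd n i j X ω), Sv ω))) E (A := 2 + A₀) (X := X)
    (by positivity) hz (by
      intro ω ω' hω hω' hE hE' e u
      have f1 := (Prod.ext_iff.mp (Prod.ext_iff.mp e).2)
      have f2 := Prod.ext_iff.mp f1.1
      have hu := H.gs_n u
      have g1 := zd_of_dig H G V hω hω' hE hE' f1.2 f2.1 f2.2 hu.1 hu.2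
      rw [V.nN ω hω hE, V.nN ω' hω' hE']
      unfold nuD
      have g2 := dgR5 (X := X) (z := z) (C := Cd) (zd ω (gs u)) (zd ω' (gs u))
      have g4 : (2 : ℝ) ^ X / Rg z Cd * |zd ω (gs u) - zd ω' (gs u)| ≤ 1 := by
        rw [div_mul_eq_mul_div, div_le_one hRg0]
        calc (2 : ℝ) ^ X * |zd ω (gs u) - zd ω' (gs u)| ≤
            2 ^ X * (Ry z Cd * ((2 : ℝ) ^ X)⁻¹) := mul_le_mul_of_nonneg_left g1 hpX.le
          _ = (2 ^ X * ((2 : ℝ) ^ X)⁻¹) * Ry z Cd := by ring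
          _ ≤ Rg z Cd := by rw [hpi]; linarith
      linarith) (by
      intro ω hω u
      exact (V.nB ω hω u).trans bd)
  rw [Fintype.card_fin] at k1 k2
  have k3 := CH_chain h0 Y N (fun ω => (B ω, ((D.vd n i j X ω, D.nd n i j X ω), Sv ω)))
  linarith

end

/-- **(hF)** The visible near point is almost independent of the context. -/
theorem hf_vis (n K K' c k0 k1 B : ℕ) (C₁ C Cd A₀ : ℝ) (hB : 1 ≤ B) (hCd : 0 ≤ Cd) (hA : 0 ≤ A₀) :
    ∃ A : ℝ, 0 ≤ A ∧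
    ∀ (D : NDat2) (J a₀ w₀ z M w i j r r2 r' r'' y a U : ℕ) (lam gam : ℕ → ℝ) (κ h h' ϖ : ℝ)
      (q : D.Ω → ℝ) (E : D.Ω → Prop) (P : D.Γ × D.Γ → ℕ → PN) (S : Slo D)
      (ys : Fin (k0 + k1) → ℕ) (gs : Fin c → ℕ) {Sg σ ζ : Type} (s : D.Ω → Sg)
      (zd : D.Ω → ℕ → ℝ) (N : D.Ω → Fin c → ℤ) (Y : D.Ω → Fin (k0 + k1) → ℤ) (Sv : D.Ω → σ)
      (Zc : D.Ω → ζ),
      Hyp D n K K' J a₀ w₀ z M w i j r r2 r' r'' y a (U * z) lam gam κ C₁ C q E P S ys gs →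
      DchX D n z i j r (U * z) Cd q E P s zd →
      VisD D z (U * z) Cd A₀ q E ys gs s zd N Y Sv →
      D.NF n z M B gam h C₁ ϖ q → ϖ ≤ 1 → i + U ≤ M → (U : ℝ) ≤ gam n * (M - j) →
      Det q Zc (fun ω => (bb D i j r ω, D.T ω)) →
      ((n - 1 : ℕ) : ℝ) * (B * (U * z) : ℕ) * Real.log 2 - C * z ≤
        CH q (D.vd n i j (B * (U * z))) Zc →
      (1 - h') * (U * z) * Real.log 2 - C₁ * z ≤
        CH q (D.nd n i j (U * z)) (fun ω => (D.nd n i j 0 ω,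
          (D.vd n i j (B * (U * z)) ω, Zc ω))) →
      CH q (fun ω => (Y ω, N ω)) Sv ≤
        CH q (fun ω => (Y ω, N ω)) (fun ω => (cb D J w i j r ω, Sv ω)) +
          ((h' - h) * (U * z : ℕ) * Real.log 2 +
            err A κ z (U * z) (Pb q (fun ω => ¬ E ω))) := by
  obtain ⟨A1, hA1⟩ : ∃ A, A = aE (k0 + k1) (2 + A₀) + aE c (2 + A₀) := ⟨_, rfl⟩
  have b1 : 0 ≤ A1 := by
    rw [hA1]
    have h1 := aE_nonneg (k0 + k1) (A := 2 + A₀) (by positivity)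
    have h2 := aE_nonneg c (A := 2 + A₀) (by positivity)
    positivity
  refine ⟨A1 + |C| + 2 * |C₁| + 2 * n + 3, by positivity, ?_⟩
  intro D J a₀ w₀ z M w i j r r2 r' r'' y a U lam gam κ h h' ϖ q E P S ys gs Sg σ ζ s zd N Y Sv Zc
    H G V hNF hϖ hU hU' hZc lo1 lo2
  obtain ⟨X, hX⟩ : ∃ X, X = U * z := ⟨_, rfl⟩
  have hXr : (X : ℝ) = U * z := by
    rw [hX]
    push_cast
    ring
  have hp := H.ok.isLaw
  have h0 := hp.nonneg
  have hiM : i ≤ M := by have := H.i2; omega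
  have hjM : j ≤ M := by have := H.j2; omega
  have C0 : 0 ≤ C := by linarith [H.Cg]
  have C10 : 0 ≤ C₁ := by linarith [H.C1]
  have a7 : CH q (D.nd n i j (U * z)) (fun ω => (D.nd n i j 0 ω,
      (D.vd n i j (B * (U * z)) ω, (D.s i j ω, D.T ω)))) ≤
      (1 - h) * (U * z) * Real.log 2 + C₁ * z := by
    have e1 := hNF i hiM j hjM 0 U (by omega) (by push_cast; linarith) (fun _ => True) (by
      have : Pb q (fun _ : D.Ω => True) = 1 := by
        unfold Pb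
        simp only [if_true]
        exact hp.sum_one
      rw [this]
      exact hϖ)
    rw [Pool.P4N.cond_true hp] at e1
    simp only [zero_add, zero_mul] at e1
    exact e1
  rw [← hX] at H G V lo1 lo2 a7 ⊢
  rw [← hXr] at lo2 a7
  have hXB : X ≤ B * X := Nat.le_mul_of_pos_left X hB
  obtain ⟨VB, hVB⟩ : ∃ VB, VB = D.vd n i j (B * X) := ⟨_, rfl⟩
  obtain ⟨NX, hNX⟩ : ∃ NX, NX = D.nd n i j X := ⟨_, rfl⟩
  obtain ⟨cbv, hcb⟩ : ∃ cbv : D.Ω → (D.Γ × D.Γ) × ℕ, cbv = cb D J w i j r := ⟨_, rfl⟩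
  -- few
  have f1 : CH q (fun ω => (Y ω, N ω)) (fun ω => ((VB ω, NX ω), Sv ω)) ≤
      A1 * (z + X * Pb q (fun ω => ¬ E ω)) := by
    have e1 := few_YN H G V hCd (fun _ : D.Ω => ()) hA
    rw [← hA1] at e1
    refine le_trans (CH_mono_cond h0 fun ω ω' hω hω' e => ?_) e1
    have e2 := Prod.ext_iff.mp e
    have e3 := Prod.ext_iff.mp e2.1
    have e4 : D.vd n i j X ω = D.vd n i j X ω' := vd_le D n i j hXB (by
      have := e3.1
      rw [hVB] at this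
      exact this)
    have e5 : D.nd n i j X ω = D.nd n i j X ω' := by
      have := e3.2
      rw [hNX] at this
      exact this
    exact Prod.ext rfl (Prod.ext (Prod.ext e4 e5) e2.2)
  have f2 : MI q (fun ω => (Y ω, N ω)) cbv Sv ≤
      MI q (fun ω => ((VB ω, NX ω), (Y ω, N ω))) cbv Sv :=
    MI_le_left h0 fun ω ω' _ _ e => (Prod.ext_iff.mp (Prod.ext_iff.mp e).1).2
  have f3 := MI_chain_left h0 (fun ω => (VB ω, NX ω)) (fun ω => (Y ω, N ω)) cbv Sv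
  have f4 := MI_le_CH h0 (fun ω => (Y ω, N ω)) cbv (fun ω => ((VB ω, NX ω), Sv ω))
  -- from above
  have u1 : CH q (fun ω => (NX ω, VB ω)) Sv = CH q VB Sv + CH q NX (fun ω => (VB ω, Sv ω)) :=
    CH_chain h0 NX VB Sv
  have sw : ∀ {T : Type} (W : D.Ω → T), CH q (fun ω => (VB ω, NX ω)) W =
      CH q (fun ω => (NX ω, VB ω)) W := by
    intro T W
    refine CH_congr h0 ?_ ?_ (fun _ _ _ _ h => h) (fun _ _ _ _ h => h)
    · intro ω ω' _ _ e
      have e1 := (Prod.ext_iff.mp e).1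
      exact Prod.ext (Prod.ext_iff.mp e1).2 (Prod.ext_iff.mp e1).1
    · intro ω ω' _ _ e
      have e1 := (Prod.ext_iff.mp e).1
      exact Prod.ext (Prod.ext_iff.mp e1).2 (Prod.ext_iff.mp e1).1
  have u2 : CH q VB Sv ≤ ((n - 1 : ℕ) : ℝ) * ((B * X : ℕ) * Real.log 2 + 2) := by
    rw [hVB]
    refine CH_ball hp _ _ (B * X) fun ω hω l => ?_
    have hl : (l : ℕ) + 1 < n := by
      have := l.2
      omega
    unfold NDat2.vd
    exact sh_bd (H.ok.pos i hiM j hjM ω hω (l + 1) (by omega) hl.le) (B * X)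
  have u3 : CH q NX (fun ω => (VB ω, Sv ω)) ≤
      CH q NX (fun ω => (VB ω, (D.s i j ω, D.T ω))) := by
    refine CH_mono_cond h0 ?_
    intro ω ω' g1 g2 e
    have e1 := Prod.ext_iff.mp e
    obtain ⟨t1, t2⟩ := G.sT ω ω' g1 g2 (V.dS ω ω' g1 g2 e1.2)
    exact Prod.ext e1.1 (Prod.ext t2 t1)
  have u4 := CH_le_add h0 NX (D.nd n i j 0) (fun ω => (VB ω, (D.s i j ω, D.T ω)))
  have u5 : CH q (D.nd n i j 0) (fun ω => (VB ω, (D.s i j ω, D.T ω))) ≤ 2 := by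
    have e1 := CH_le_card h0 hp.sum_one (D.nd n i j 0)
      (fun ω => (VB ω, (D.s i j ω, D.T ω))) (fun _ => Finset.Icc (-1 : ℤ) 1)
      (fun ω hω => by
        have e2 := sh_bd (H.ok.pos i hiM j hjM ω hω n H.n1 le_rfl) 0
        unfold NDat2.nd
        rw [pow_zero] at e2
        have e3 := abs_le.1 e2
        rw [Finset.mem_Icc]
        constructor
        · exact_mod_cast e3.1
        · exact_mod_cast e3.2)
    refine e1.trans ?_
    rw [Ex_const hp.sum_one]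
    have e4 : (Finset.Icc (-1 : ℤ) 1).card = 3 := by decide
    rw [e4]
    have e5 : Real.log ((3 : ℕ) : ℝ) ≤ Real.log (2 ^ 2) :=
      Real.log_le_log (by norm_num) (by norm_num)
    rw [Real.log_pow] at e5
    have hl : Real.log 2 < 0.6931471808 := Real.log_two_lt_d9
    push_cast at e5 ⊢
    linarith
  have u6 : CH q NX (fun ω => (D.nd n i j 0 ω, (VB ω, (D.s i j ω, D.T ω)))) ≤
      (1 - h) * X * Real.log 2 + C₁ * z := by
    rw [hNX, hVB]
    exact a7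
  -- from below
  have l1 : CH q (fun ω => (VB ω, NX ω)) (fun ω => (E ω, Zc ω)) ≤
      CH q (fun ω => (VB ω, NX ω)) (fun ω => (cbv ω, Sv ω)) := by
    refine CH_mono_cond h0 fun ω ω' g1 g2 e => ?_
    have e1 := Prod.ext_iff.mp e
    have e2 := Prod.ext_iff.mp (hZc ω ω' g1 g2 e1.2)
    have e3 : D.T ω = D.T ω' := e2.2
    have e4 : bb D i j r ω = bb D i j r ω' := e2.1
    refine Prod.ext ?_ (V.Sd ω ω' g1 g2 (Prod.ext e1.1 (G.bs ω ω' g1 g2 e4 e3)))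
    rw [hcb]
    refine Prod.ext e4 ?_
    change D.T ω / 2 ^ (J - w) = D.T ω' / 2 ^ (J - w)
    rw [e3]
  have l2 := CH_le_add h0 (fun ω => (VB ω, NX ω)) E Zc
  have l3 := CH_prop_le h0 hp.sum_one E Zc
  have l4 : CH q (fun ω => (NX ω, VB ω)) Zc = CH q VB Zc + CH q NX (fun ω => (VB ω, Zc ω)) :=
    CH_chain h0 NX VB Zc
  have l5 : CH q NX (fun ω => (D.nd n i j 0 ω, (VB ω, Zc ω))) ≤
      CH q NX (fun ω => (VB ω, Zc ω)) :=
    CH_mono_cond h0 fun ω ω' _ _ e => (Prod.ext_iff.mp e).2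
  have l6 : ((n - 1 : ℕ) : ℝ) * (B * X : ℕ) * Real.log 2 - C * z ≤ CH q VB Zc := by
    rw [hVB]
    exact lo1
  have l7 : (1 - h') * X * Real.log 2 - C₁ * z ≤
      CH q NX (fun ω => (D.nd n i j 0 ω, (VB ω, Zc ω))) := by
    rw [hNX, hVB]
    exact lo2
  have s1 := sw Sv
  have s2 := sw Zc
  -- the sum
  obtain ⟨b, hb⟩ : ∃ b, b = Pb q (fun ω => ¬ E ω) := ⟨_, rfl⟩
  have hb0 : 0 ≤ b := by
    rw [hb]
    exact H.b0
  rw [← hb] at f1 ⊢
  have z1 : (1 : ℝ) ≤ z := by exact_mod_cast H.z1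
  have κ0 := H.κ0
  have x0 : (0 : ℝ) ≤ X := Nat.cast_nonneg X
  have xb : 0 ≤ (X : ℝ) * b := mul_nonneg x0 hb0
  have κz : 0 ≤ κ * z := mul_nonneg κ0 (by linarith)
  have hl : Real.log 2 < 0.6931471808 := Real.log_two_lt_d9
  have n1 : ((n - 1 : ℕ) : ℝ) ≤ n := by exact_mod_cast Nat.sub_le n 1
  rw [abs_of_nonneg C0, abs_of_nonneg C10]
  unfold err
  unfold MI at f2 f3 f4
  rw [hcb] at f2 f3 f4 l1
  have m1 : A1 * (z + X * b) + 2 * ((n - 1 : ℕ) : ℝ) + 2 + C₁ * z + C * z + C₁ * z +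
      Real.log 2 ≤ (A1 + C + 2 * C₁ + 2 * n + 3) * ((1 + κ) * z + X * b) := by
    have h1 : 0 ≤ A1 * (κ * z) := mul_nonneg b1 κz
    have h2 : 0 ≤ C₁ * (κ * z) := mul_nonneg C10 κz
    have h3 : 0 ≤ C₁ * (X * b) := mul_nonneg C10 xb
    have h4 : 0 ≤ C * (κ * z) := mul_nonneg C0 κz
    have h5 : 0 ≤ C * (X * b) := mul_nonneg C0 xb
    have n0 : (0 : ℝ) ≤ n := Nat.cast_nonneg n
    have h6 : 0 ≤ (n : ℝ) * (κ * z) := mul_nonneg n0 κz
    have h7 : 0 ≤ (n : ℝ) * (X * b) := mul_nonneg n0 xb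
    have h8 : (n : ℝ) ≤ n * z := by nlinarith only [n0, z1]
    have e : (A1 + C + 2 * C₁ + 2 * n + 3) * ((1 + κ) * z + X * b) =
        (A1 * (z + X * b) + C * z + 2 * (C₁ * z) + 2 * (n * z) + 3 * z) +
        (A1 * (κ * z) + C * (κ * z) + C * (X * b) + 2 * (C₁ * (κ * z)) + 2 * (C₁ * (X * b)) +
          2 * (n * (κ * z)) + 2 * (n * (X * b)) + 3 * (κ * z) + 3 * (X * b)) := by ring
    rw [e]
    linarith only [h1, h2, h3, h4, h5, h6, h7, h8, κz, xb, z1, hl, n1]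
  linarith

end Pool.P5N
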