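import Pool.Agent.H98.P5.NFvB
import Pool.Agent.H89.P4.Hs
import Pool.Agent.H98.QW.NfbH

/-!
# The target is not full, over the visible chart (P5; the field `nf` of `VCh`)
-/

set_option autoImplicit false

namespace Pool.P5N

open Finset Real
open Pool.Agent.H49.Ent Pool.Agent.H32.Dense Pool.STK Pool.STAT Pool.MIC Pool.P5
open Pool.MIC.Frm
open Pool.QC (nfb)
open Pool.BFL (Pb)
open Pool.P4 (t0 rt pp PthC FraC bb ze zt z0 be cl1 dg dgp Ry cb LLC tq GoodS FrP err Dch yD rcd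
  zdv aE aE_nonneg few_exp few_exp0 div_lipR div_absR mul_expz two_pow_exp floor_near c_up)
open Pool.P4N (Ry_one dg_eq dg_sub dgp_eq dg_bd rt_bd rt_T fl_eq fl_sub few_ev CH_one_low
  nd_div sh_bd log_4X DchX dch_x dch_mono dch_near dgp_lipR)

/-- The number of the coordinates. -/
theorem count_kc5 {k c n : ℕ} {gam : ℕ → ℝ} {ys : Fin k → ℕ} {gs : Fin c → ℕ}
    (h1 : ∀ a, sl gam n (ys a)) (h2 : Function.Injective ys) (h3 : ∀ l, sl gam n l → ∃ a, ys a = l)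
    (g1 : ∀ u, gr gam n (gs u)) (g2 : Function.Injective gs)
    (g3 : ∀ l, gr gam n l → ∃ u, gs u = l) : k + c = n := by
  have e : (Finset.univ.image ys) ∪ (Finset.univ.image gs) = Finset.Icc 1 n := by
    ext l
    rw [Finset.mem_union, Finset.mem_image, Finset.mem_image, Finset.mem_Icc]
    constructor
    · rintro (⟨a, _, ha⟩ | ⟨u, _, hu⟩)
      · rw [← ha]
        exact ⟨(h1 a).1, (h1 a).2.1.le⟩
      · rw [← hu]
        exact ⟨(g1 u).1, (g1 u).2.1⟩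
    · rintro ⟨a1, a2⟩
      rcases sl_or_gr (gam := gam) a1 a2 with hs | hs
      · obtain ⟨a, ha⟩ := h3 l hs
        exact Or.inl ⟨a, Finset.mem_univ _, ha⟩
      · obtain ⟨u, hu⟩ := g3 l hs
        exact Or.inr ⟨u, Finset.mem_univ _, hu⟩
  have d : Disjoint (Finset.univ.image ys) (Finset.univ.image gs) := by
    rw [Finset.disjoint_left]
    intro l hl hl'
    obtain ⟨a, _, ha⟩ := Finset.mem_image.1 hl
    obtain ⟨u, _, hu⟩ := Finset.mem_image.1 hl'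
    have b1 := (h1 a).2.2
    have b2 := (g1 u).2.2
    rw [ha] at b1
    rw [hu] at b2
    linarith
  have f := congrArg Finset.card e
  rw [Finset.card_union_of_disjoint d, Finset.card_image_of_injective _ h2,
    Finset.card_image_of_injective _ g2, Finset.card_univ, Finset.card_univ, Fintype.card_fin,
    Fintype.card_fin, Nat.card_Icc] at f
  omega

section

variable {D : NDat2} {n K K' J a₀ w₀ z M w i j r r2 r' r'' y a X : ℕ} {lam gam : ℕ → ℝ}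
  {κ C₁ C : ℝ} {q : D.Ω → ℝ} {E : D.Ω → Prop} {P : D.Γ × D.Γ → ℕ → PN}
  {S : Slo D} {c k0 k1 : ℕ} {ys : Fin (k0 + k1) → ℕ} {gs : Fin c → ℕ}
  {Sg σ : Type} {s : D.Ω → Sg} {zd : D.Ω → ℕ → ℝ} {Cd A₀ : ℝ}
  {N : D.Ω → Fin c → ℤ} {Y : D.Ω → Fin (k0 + k1) → ℤ} {Sv : D.Ω → σ}
  (H : Hyp D n K K' J a₀ w₀ z M w i j r r2 r' r'' y a X lam gam κ C₁ C q E P S ys gs)
  (G : DchX D n z i j r X Cd q E P s zd) (V : VisD D z X Cd A₀ q E ys gs s zd N Y Sv)
  (hCd : 0 ≤ Cd)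

include H G V hCd

/-- **The group without the target is full below every depth, given the visible data.** -/
theorem hs_vis (hA : 0 ≤ A₀) {n₀ : Fin c} (hn : gs n₀ = n) {x : ℕ} (hx : x ≤ X) :
    ((c : ℝ) - 1) * (((X : ℝ) - x) * Real.log 2) -
      (C * z + Real.log 2 + (aE c (6 + C + A₀) + aE (k0 + k1) (4 + C + A₀) +
        aE (n - 1) (3 + 2 * C₁ + C + 4 * Cd)) * (z + X * Pb q (fun ω => ¬ E ω))) ≤
      CH q (fun ω (u : {u : Fin c // u ≠ n₀}) => N ω u)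
        (fun ω => ((fun u => N ω u / 2 ^ (X - x)), (Y ω, Sv ω))) := by
  classical
  have hq := H.ok.isLaw
  have h0 := hq.nonneg
  obtain ⟨ρ, hρ⟩ : ∃ ρ : ℝ, ρ = z + X * Pb q (fun ω => ¬ E ω) := ⟨_, rfl⟩
  rw [← hρ]
  -- the deeper place
  have z1 := H.z1
  obtain ⟨x₀, hX, hxM⟩ := H.Xz
  obtain ⟨v, hv⟩ : ∃ v, v = x / z := ⟨_, rfl⟩
  have hv1 : v * z ≤ x := by
    rw [hv]
    exact Nat.div_mul_le_self _ _
  have hv2 : x < v * z + z := by
    rw [hv]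
    exact Nat.lt_div_mul_add (by omega)
  have hv3 : v ≤ x₀ := by
    have h1 : v * z ≤ x₀ * z := by
      rw [← hX]
      omega
    exact Nat.le_of_mul_le_mul_right h1 (by omega)
  obtain ⟨U, hU⟩ : ∃ U, x₀ = v + U := ⟨x₀ - v, by omega⟩
  have hUX : (v + U) * z = X := by rw [hX, hU]
  have hUX' : X - v * z = U * z := by
    rw [← hUX, Nat.add_mul]
    omega
  have hM : i + v + r'' < M := by omega
  have j1 := H.j1
  have j2 := H.j2
  -- the variables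
  obtain ⟨Z, hZ⟩ : ∃ Z : D.Ω → Prop × (D.Γ × (D.Γ × ℕ)), Z = fun ω =>
    (E ω, (D.c (i - 1) (j - r) ω, (D.c (i + v) j ω, D.T ω))) := ⟨_, rfl⟩
  obtain ⟨N', hN'⟩ : ∃ N' : D.Ω → {u : Fin c // u ≠ n₀} → ℤ, N' =
    fun ω (u : {u : Fin c // u ≠ n₀}) => N ω u := ⟨_, rfl⟩
  obtain ⟨F, hF⟩ : ∃ F : D.Ω → Fin c → ℤ, F = fun ω u => N ω u / 2 ^ (X - x) := ⟨_, rfl⟩
  have eZ : ∀ ω ω', 0 < q ω → 0 < q ω' → Z ω = Z ω' → Sv ω = Sv ω' := by
    intro ω ω' hω hω' e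
    rw [hZ] at e
    obtain ⟨f1, f2, f3⟩ := H.up (i' := i + v) (by omega) hM hω hω' (Prod.ext_iff.mp e).2
    exact V.Sd ω ω' hω hω' (Prod.ext (Prod.ext_iff.mp e).1 (G.bs ω ω' hω hω' f1 f3))
  have m1 : CH q N' (fun ω => (F ω, (Y ω, Z ω))) ≤ CH q N' (fun ω => (F ω, (Y ω, Sv ω))) := by
    refine CH_mono_cond h0 fun ω ω' hω hω' e => ?_
    have e1 := (Prod.ext_iff.mp e).1
    have e2 := (Prod.ext_iff.mp e).2
    exact Prod.ext e1 (Prod.ext (Prod.ext_iff.mp e2).1 (eZ ω ω' hω hω' (Prod.ext_iff.mp e2).2))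
  have m2 := CH_le_add h0 N' F (fun ω => (Y ω, Z ω))
  have m3 : CH q F (fun ω => (Y ω, Z ω)) ≤ aE c (6 + C + A₀) * ρ := by
    have h1 := few1v H G V hCd hA hx hv1 hv2 hM (fun ω => (Y ω, E ω))
    rw [← hF, ← hρ] at h1
    refine le_trans (CH_mono_cond h0 fun ω ω' hω hω' e => ?_) h1
    have e3 := (Prod.ext_iff.mp e).1
    have e4 := (Prod.ext_iff.mp e).2
    simp only at e4
    rw [hZ] at e4
    exact Prod.ext (Prod.ext e3 (Prod.ext_iff.mp e4).1) (Prod.ext_iff.mp e4).2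
  have m4 := CH_chain h0 Y N' Z
  have m4' := CH_chain h0 N' Y Z
  have m5 : CH q Y Z ≤ ((k0 + k1 : ℕ) : ℝ) * (((U * z : ℕ) : ℝ) * Real.log 2) + aE (k0 + k1) (4 + C + A₀) * ρ := by
    have h1 := few8v H G V hCd hA (v := v) (hv1.trans hx) hM E
    rw [hUX', ← hρ, ← hZ] at h1
    exact h1
  have m6 := CH_le_add h0 (D.vd n (i + v) j (U * z)) (fun ω => (Y ω, N' ω)) Z
  have m7 : CH q (D.vd n (i + v) j (U * z)) (fun ω => ((Y ω, N' ω), Z ω)) ≤
      aE (n - 1) (3 + 2 * C₁ + C + 4 * Cd) * ρ := by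
    have h1 := few6v H G V hCd hUX hM hn E
    rw [← hρ] at h1
    refine le_trans (CH_mono_cond h0 fun ω ω' hω hω' e => ?_) h1
    have e1 := (Prod.ext_iff.mp e).1
    have e2 : Z ω = Z ω' := (Prod.ext_iff.mp e).2
    rw [hZ] at e2
    have e3 : N' ω = N' ω' := (Prod.ext_iff.mp e1).2
    rw [hN'] at e3
    exact Prod.ext (Prod.ext_iff.mp e1).1 (Prod.ext e3 e2)
  have m8 : ((n - 1 : ℕ) : ℝ) * (U * z) * Real.log 2 - C * z ≤
      CH q (D.vd n (i + v) j (U * z))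
        (fun ω => (D.c (i - 1) (j - r) ω, (D.c (i + v) j ω, D.T ω))) := by
    have i0 := H.i0
    have hUr : U * r ≤ x₀ * r := Nat.mul_le_mul_right r (by omega)
    have hXr := H.Xr x₀ hX
    have h1 := H.llc (i + v) j r U (by omega) j1 (by omega) (by omega)
    refine h1.trans (CH_mono_cond h0 fun ω ω' hω hω' e => ?_)
    have e1 := (Prod.ext_iff.mp e).1
    have e2 := (Prod.ext_iff.mp e).2
    have h2 := c_up H.ok (j := j - r) (by omega) (i - 1) v (by omega)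
    rw [show i - 1 + v = i + v - 1 by omega] at h2
    exact Prod.ext (h2 ω ω' hω hω' e1) e2
  have m9 := CH_le_add h0 (D.vd n (i + v) j (U * z)) E
    (fun ω => (D.c (i - 1) (j - r) ω, (D.c (i + v) j ω, D.T ω)))
  have m10 := CH_prop_le h0 hq.sum_one E
    (fun ω => (D.c (i - 1) (j - r) ω, (D.c (i + v) j ω, D.T ω)))
  have m11 : CH q (D.vd n (i + v) j (U * z))
      (fun ω => (E ω, (D.c (i - 1) (j - r) ω, (D.c (i + v) j ω, D.T ω)))) =
      CH q (D.vd n (i + v) j (U * z)) Z := by rw [hZ]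
  have m12 : CH q (fun ω => (Y ω, N' ω)) Z ≤ CH q (fun ω => (N' ω, Y ω)) Z := by
    refine CH_mono_left h0 ?_
    intro ω ω' _ _ e
    simp only [Prod.mk.injEq] at e ⊢
    exact ⟨e.1.2, e.1.1⟩
  -- the sum
  have hkc := count_kc5 H.ys_sl H.ys_in (fun l hl => H.ys_on hl) H.gs_gr H.gs_in.injective H.gs_on
  have c1 : 1 ≤ c := by
    have := n₀.2
    omega
  have n1 : ((n - 1 : ℕ) : ℝ) = ((k0 + k1 : ℕ) : ℝ) + (c - 1) := by
    have : n - 1 = (k0 + k1) + (c - 1) := by omega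
    rw [this]
    push_cast [Nat.cast_sub c1]
    ring
  rw [n1] at m8
  have l2 : 0 ≤ Real.log 2 := Real.log_nonneg (by norm_num)
  have c1' : (1 : ℝ) ≤ c := by exact_mod_cast c1
  have hUz : ((U * z : ℕ) : ℝ) = X - v * z := by
    rw [← hUX']
    rw [Nat.cast_sub (hv1.trans hx)]
    push_cast
    ring
  have hxx : (X : ℝ) - x ≤ ((U * z : ℕ) : ℝ) := by
    rw [hUz]
    have : ((v * z : ℕ) : ℝ) ≤ x := by exact_mod_cast hv1
    push_cast at this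
    linarith
  have m20 : ((c : ℝ) - 1) * (((X : ℝ) - x) * Real.log 2) ≤
      ((c : ℝ) - 1) * (((U * z : ℕ) : ℝ) * Real.log 2) :=
    mul_le_mul_of_nonneg_left (mul_le_mul_of_nonneg_right hxx l2) (by linarith)
  have m21 : (((k0 + k1 : ℕ) : ℝ) + ((c : ℝ) - 1)) * (U * z) * Real.log 2 =
      ((k0 + k1 : ℕ) : ℝ) * ((U * z : ℕ) * Real.log 2) + ((c : ℝ) - 1) * (((U * z : ℕ) : ℝ) * Real.log 2) := by
    push_cast
    ring
  rw [m21] at m8
  have goal1 : ((c : ℝ) - 1) * (((X : ℝ) - x) * Real.log 2) -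
      (C * z + Real.log 2 + (aE c (6 + C + A₀) + aE (k0 + k1) (4 + C + A₀) +
        aE (n - 1) (3 + 2 * C₁ + C + 4 * Cd)) * ρ) ≤
      CH q N' (fun ω => (F ω, (Y ω, Sv ω))) := by
    linarith
  rw [hN', hF] at goal1
  exact goal1

end

/-- **(NF), visible.** The target is not full, given the rest of the visible near point and the
visible record. -/
theorem nf_vis {D : NDat2} {n K K' J a₀ w₀ z M w i j r r2 r' r'' y a U B : ℕ} {lam gam : ℕ → ℝ}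
    {κ C₁ C h ϖ : ℝ} {q : D.Ω → ℝ} {E : D.Ω → Prop} {P : D.Γ × D.Γ → ℕ → PN}
    {S : Slo D} {c k0 k1 : ℕ} {ys : Fin (k0 + k1) → ℕ} {gs : Fin c → ℕ}
    {Sg σ : Type} {s : D.Ω → Sg} {zd : D.Ω → ℕ → ℝ} {Cd A₀ : ℝ}
    {N : D.Ω → Fin c → ℤ} {Y : D.Ω → Fin (k0 + k1) → ℤ} {Sv : D.Ω → σ}
    (H : Hyp D n K K' J a₀ w₀ z M w i j r r2 r' r'' y a (B * U * z) lam gam κ C₁ C q E P S ys gs)
    (G : DchX D n z i j r (B * U * z) Cd q E P s zd)
    (V : VisD D z (B * U * z) Cd A₀ q E ys gs s zd N Y Sv)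
    (hCd : 0 ≤ Cd) (hA : 0 ≤ A₀) (hNF : D.NF n z M B gam h C₁ ϖ q) (hB : 1 ≤ B)
    (hϖ : ϖ ≤ 1) {n₀ : Fin c} (hn : gs n₀ = n) (hU : i + U ≤ M)
    (hU' : (U : ℝ) ≤ gam n * (M - j)) :
    CH q (fun ω => N ω n₀)
      (fun ω => ((fun u : {u : Fin c // u ≠ n₀} => N ω u), (Y ω, Sv ω))) ≤
      (1 - h / B) * (B * U * z : ℕ) * Real.log 2 + (C₁ * z + 2 + (aE (n - 1) (3 + 4 * Cd) +
        aE 1 (2 + 2 * Cd + A₀)) * (z + (B * U * z : ℕ) * Pb q (fun ω => ¬ E ω))) := by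
  classical
  obtain ⟨X, hX⟩ : ∃ X, X = B * U * z := ⟨_, rfl⟩
  rw [← hX] at H G V ⊢
  have hp := H.ok.isLaw
  have h0 := hp.nonneg
  have hl0 : 0 < Real.log 2 := Real.log_pos (by norm_num)
  have hl : Real.log 2 < 0.6931471808 := Real.log_two_lt_d9
  have hiM : i ≤ M := by have := H.i2; omega
  have hjM : j ≤ M := by have := H.j2; omega
  have hUX : U * z ≤ X := by
    rw [hX]
    calc U * z = 1 * (U * z) := (one_mul _).symm
      _ ≤ B * (U * z) := Nat.mul_le_mul_right _ hB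
      _ = B * U * z := (mul_assoc _ _ _).symm
  obtain ⟨W, hW⟩ : ∃ W : D.Ω → ({u : Fin c // u ≠ n₀} → ℤ) × ((Fin (k0 + k1) → ℤ) × σ), W = fun ω =>
      ((fun u : {u : Fin c // u ≠ n₀} => N ω u), (Y ω, Sv ω)) := ⟨_, rfl⟩
  have a1 := CH_le_add h0 (fun ω => N ω n₀) (D.nd n i j X) W
  have a2 := CH_le_add h0 (D.nd n i j X) (D.vd n i j X) W
  have a3 : CH q (D.nd n i j X) (fun ω => (D.vd n i j X ω, W ω)) ≤
      CH q (D.nd n i j X) (fun ω => (D.vd n i j X ω, (D.s i j ω, D.T ω))) := by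
    refine CH_mono_cond h0 ?_
    intro ω ω' g1 g2 e
    have e1 := (Prod.ext_iff.mp e).1
    have e2 : W ω = W ω' := (Prod.ext_iff.mp e).2
    rw [hW] at e2
    have e3 : Sv ω = Sv ω' := (Prod.ext_iff.mp (Prod.ext_iff.mp e2).2).2
    obtain ⟨t1, t2⟩ := G.sT ω ω' g1 g2 (V.dS ω ω' g1 g2 e3)
    exact Prod.ext e1 (Prod.ext t2 t1)
  have a4 := CH_le_add h0 (D.nd n i j X) (D.nd n i j (U * z))
    (fun ω => (D.vd n i j X ω, (D.s i j ω, D.T ω)))
  have a5 : CH q (D.nd n i j X) (fun ω => (D.nd n i j (U * z) ω,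
      (D.vd n i j X ω, (D.s i j ω, D.T ω)))) ≤ ((X - U * z : ℕ) : ℝ) * Real.log 2 := by
    have e1 := CH_one_low hp (D.nd n i j X) (X - U * z)
      (fun ω => (D.vd n i j X ω, (D.s i j ω, D.T ω)))
    have e2 : (fun ω => (D.nd n i j X ω / 2 ^ (X - U * z),
        (D.vd n i j X ω, (D.s i j ω, D.T ω)))) = (fun ω => (D.nd n i j (U * z) ω,
        (D.vd n i j X ω, (D.s i j ω, D.T ω)))) := by
      funext ω
      have e3 := nd_div D n i j (U * z) (X - U * z) ω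
      rw [Nat.add_sub_cancel' hUX] at e3
      rw [e3]
    rw [e2] at e1
    exact e1
  have a6 := CH_le_add h0 (D.nd n i j (U * z)) (D.nd n i j 0)
    (fun ω => (D.vd n i j X ω, (D.s i j ω, D.T ω)))
  have a7 : CH q (D.nd n i j (U * z)) (fun ω => (D.nd n i j 0 ω,
      (D.vd n i j X ω, (D.s i j ω, D.T ω)))) ≤ (1 - h) * (U * z) * Real.log 2 + C₁ * z := by
    have e1 := hNF i hiM j hjM 0 U (by omega) (by push_cast; linarith) (fun _ => True) (by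
      have : Pb q (fun _ : D.Ω => True) = 1 := by
        unfold Pb
        simp only [if_true]
        exact hp.sum_one
      rw [this]
      exact hϖ)
    rw [Pool.P4N.cond_true hp] at e1
    simp only [zero_add, zero_mul] at e1
    have e2 : B * (U * z) = X := by rw [hX, mul_assoc]
    rw [e2] at e1
    exact e1
  have a8 : CH q (D.nd n i j 0) (fun ω => (D.vd n i j X ω, (D.s i j ω, D.T ω))) ≤ 2 := by
    have e1 := CH_le_card h0 hp.sum_one (D.nd n i j 0)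
      (fun ω => (D.vd n i j X ω, (D.s i j ω, D.T ω))) (fun _ => Finset.Icc (-1 : ℤ) 1)
      (fun ω hω => by
        have e2 := sh_bd (H.ok.pos i hiM j hjM ω hω n H.n1 le_rfl) 0
        unfold NDat2.nd
        rw [pow_zero] at e2
        have e3 := abs_le.1 e2
        rw [Finset.mem_Icc]
        constructor
        · exact_mod_cast e3.1
        · exact_mod_cast e3.2)
    refine e1.trans ?_
    rw [Ex_const hp.sum_one]
    have e4 : (Finset.Icc (-1 : ℤ) 1).card = 3 := by decide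
    rw [e4]
    have e5 : Real.log ((3 : ℕ) : ℝ) ≤ Real.log (2 ^ 2) :=
      Real.log_le_log (by norm_num) (by norm_num)
    rw [Real.log_pow] at e5
    push_cast at e5 ⊢
    linarith
  have b1 : CH q (D.vd n i j X) W ≤
      aE (n - 1) (3 + 4 * Cd) * (z + X * Pb q (fun ω => ¬ E ω)) := by
    rw [hW]
    exact few_vdD H G V hCd hn hiM hjM
  have b2 : CH q (fun ω => N ω n₀) (fun ω => (D.nd n i j X ω, W ω)) ≤
      aE 1 (2 + 2 * Cd + A₀) * (z + X * Pb q (fun ω => ¬ E ω)) := by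
    rw [hW]
    exact few_nuD H G V hCd hA hn
  have hsub : ((X - U * z : ℕ) : ℝ) = X - U * z := by
    rw [Nat.cast_sub hUX]
    push_cast
    ring
  rw [hsub] at a5
  have hBr : (1 : ℝ) ≤ B := by exact_mod_cast hB
  have hXr : (X : ℝ) = B * (U * z) := by
    rw [hX]
    push_cast
    ring
  have hmain : (1 - h) * (U * z) * Real.log 2 + ((X : ℝ) - U * z) * Real.log 2 =
      (1 - h / B) * (X : ℝ) * Real.log 2 := by
    rw [hXr]
    field_simp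
    ring
  have goal : CH q (fun ω => N ω n₀) W ≤ (1 - h / B) * (X : ℝ) * Real.log 2 +
      (C₁ * z + 2 + (aE (n - 1) (3 + 4 * Cd) +
        aE 1 (2 + 2 * Cd + A₀)) * (z + X * Pb q (fun ω => ¬ E ω))) := by
    linarith
  rw [hW] at goal
  exact goal

/-- **(NFv)** The field `nf` of the visible chart. -/
theorem nfv (n K K' c k0 k1 B B' : ℕ) (C₁ C Cd A₀ : ℝ) (hB : 1 ≤ B) (hB' : 0 < B') (hCd : 0 ≤ Cd)
    (hA : 0 ≤ A₀) : ∃ A : ℝ, 0 ≤ A ∧
    ∀ (D : NDat2) (J a₀ w₀ z M w i j r r2 r' r'' y a U : ℕ) (lam gam : ℕ → ℝ) (κ h ϖ : ℝ)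
      (q : D.Ω → ℝ) (E : D.Ω → Prop) (P : D.Γ × D.Γ → ℕ → PN) (S : Slo D)
      (ys : Fin (k0 + k1) → ℕ) (gs : Fin c → ℕ) (n₀ : Fin c) {Sg σ : Type} (s : D.Ω → Sg)
      (zd : D.Ω → ℕ → ℝ) (N : D.Ω → Fin c → ℤ) (Y : D.Ω → Fin (k0 + k1) → ℤ) (Sv : D.Ω → σ),
      Hyp D n K K' J a₀ w₀ z M w i j r r2 r' r'' y a (B * U * z) lam gam κ C₁ C q E P S ys gs →
      DchX D n z i j r (B * U * z) Cd q E P s zd →
      VisD D z (B * U * z) Cd A₀ q E ys gs s zd N Y Sv →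
      D.NF n z M B gam h C₁ ϖ q → ϖ ≤ 1 → gs n₀ = n → i + U ≤ M →
      (U : ℝ) ≤ gam n * (M - j) →
      nfb q N (fun ω => (Y ω, Sv ω)) n₀ (B * U * z) B' ≤
        (1 - h / B) * (B * U * z : ℕ) * Real.log 2 +
          err A κ z (B * U * z) (Pb q (fun ω => ¬ E ω)) := by
  obtain ⟨A1, hA1⟩ : ∃ A, A = aE c (6 + |C| + A₀) + aE (k0 + k1) (4 + |C| + A₀) +
    aE (n - 1) (3 + 2 * |C₁| + |C| + 4 * Cd) := ⟨_, rfl⟩
  obtain ⟨A2, hA2⟩ : ∃ A, A = aE (n - 1) (3 + 4 * Cd) + aE 1 (2 + 2 * Cd + A₀) := ⟨_, rfl⟩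
  have b1 : 0 ≤ A1 := by
    rw [hA1]
    have h1 := aE_nonneg c (A := 6 + |C| + A₀) (by positivity)
    have h2 := aE_nonneg (k0 + k1) (A := 4 + |C| + A₀) (by positivity)
    have h3 := aE_nonneg (n - 1) (A := 3 + 2 * |C₁| + |C| + 4 * Cd) (by positivity)
    positivity
  have b2 : 0 ≤ A2 := by
    rw [hA2]
    have h1 := aE_nonneg (n - 1) (A := 3 + 4 * Cd) (by positivity)
    have h2 := aE_nonneg 1 (A := 2 + 2 * Cd + A₀) (by positivity)
    positivity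
  refine ⟨|C₁| + 2 + A2 + B' * (|C| + 1 + A1), by positivity, ?_⟩
  intro D J a₀ w₀ z M w i j r r2 r' r'' y a U lam gam κ h ϖ q E P S ys gs n₀ Sg σ s zd N Y Sv H G V
    hNF hϖ hn hU hU'
  have a1 := nf_vis H G V hCd hA hNF hB hϖ hn hU hU'
  obtain ⟨X, hX⟩ : ∃ X, X = B * U * z := ⟨_, rfl⟩
  rw [← hX] at H G V a1 ⊢
  have C0 : 0 ≤ C := by linarith [H.Cg]
  have C10 : 0 ≤ C₁ := by linarith [H.C1]
  rw [abs_of_nonneg C0, abs_of_nonneg C10] at hA1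
  rw [abs_of_nonneg C10, abs_of_nonneg C0]
  have a2 := Pool.QC98.nfb_of_hs H.ok.isLaw N (fun ω => (Y ω, Sv ω)) n₀ (X := X) (B := B') hB'
    (fun d hd => hs_vis H G V hCd hA hn hd)
  rw [← hA1] at a2
  rw [← hA2] at a1
  obtain ⟨b, hb⟩ : ∃ b, b = Pb q (fun ω => ¬ E ω) := ⟨_, rfl⟩
  have hb0 : 0 ≤ b := by
    rw [hb]
    exact H.b0
  rw [← hb] at a1 a2 ⊢
  have z1 : (1 : ℝ) ≤ z := by exact_mod_cast H.z1
  have κ0 := H.κ0
  have x0 : (0 : ℝ) ≤ X := Nat.cast_nonneg X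
  have xb : 0 ≤ (X : ℝ) * b := mul_nonneg x0 hb0
  have κz : 0 ≤ κ * z := mul_nonneg κ0 (by linarith)
  have B0 : (0 : ℝ) ≤ B' := Nat.cast_nonneg B'
  have hl : Real.log 2 < 0.6931471808 := Real.log_two_lt_d9
  unfold err
  have c1 : C * z + Real.log 2 + A1 * (z + X * b) ≤ (C + 1 + A1) * ((1 + κ) * z + X * b) := by
    have h1 : 0 ≤ A1 * (κ * z) := mul_nonneg b1 κz
    have h2 : 0 ≤ C * (κ * z) := mul_nonneg C0 κz
    have h3 : 0 ≤ C * (X * b) := mul_nonneg C0 xb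
    nlinarith only [h1, h2, h3, κz, xb, z1, hl]
  have c2 := mul_le_mul_of_nonneg_left c1 B0
  have c3 : C₁ * z + 2 + A2 * (z + X * b) ≤ (C₁ + 2 + A2) * ((1 + κ) * z + X * b) := by
    have h1 : 0 ≤ A2 * (κ * z) := mul_nonneg b2 κz
    have h2 : 0 ≤ C₁ * (κ * z) := mul_nonneg C10 κz
    have h3 : 0 ≤ C₁ * (X * b) := mul_nonneg C10 xb
    nlinarith only [h1, h2, h3, κz, xb, z1]
  linarith only [a1, a2, c2, c3]

end Pool.P5N
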