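import Pool.Agent.H89.P4.V7
import Pool.Agent.H25.P5.Bas

/-!
# P5: the change of charts, for the visible frame

`zh`, `cMx`, `Fx`, `Cht` are those of P4. `cht_hat`: the hypothesis `Cht` of `vch`.
-/

set_option autoImplicit false

namespace Pool.P5

open Finset Real MvPolynomial
open Pool.Agent.H49.Ent Pool.Agent.H32.Dense Pool.STK Pool.STAT Pool.MIC.Frm Pool.MIC7 Pool.FRM
open Pool.GSD Pool.POT
open Pool.MIC.Fru (gw nat_gw nat_gw0 atT_tri atT_deg)
open Pool.LBL (Uni)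
open Pool.BFL (Pb)
open Pool.P4 (t0 rt pp PthC FraC bb ze zt z0 be cl1 dg dgp Ry cb LLC tq GoodS FrP err Cht rcd zd
  zh cMx cM MM Fx hat hat_rcd hat_E chr_dif zd_two slo_conv rep_rly kap_zero uni_inv ex_mono
  ex_one)

/-- The data of a place, from the cell. -/
theorem Hyp.fx {D : NDat2} {n K K' J a₀ w₀ z M w i j r r2 r' r'' y X a : ℕ} {lam gam : ℕ → ℝ}
    {κ C₁ C C₀ : ℝ} {q : D.Ω → ℝ} {E : D.Ω → Prop} {P : D.Γ × D.Γ → ℕ → PN}
    {S : Slo D} {c k0 k1 : ℕ} {ys : Fin (k0 + k1) → ℕ} {gs : Fin c → ℕ}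
    (H : Hyp D n K K' J a₀ w₀ z M w i j r r2 r' r'' y a X lam gam κ C₁ C q E P S ys gs)
    (hg : Geo D n K' J w₀ z i j r r2 r' r'' gam C₀ (exp (C₀ * z) / 2 ^ (y * z)) q E P S)
    (gd : ∀ ω, E ω → 0 < q ω ∧ GoodS D n K' w₀ z M C₀ ω ∧
      FrP D n K' z i j r C₀ (P (bb D i j r ω)) ω) :
    Fx D n (max K K') K K' J a₀ w₀ z M i j r r' a y lam gam κ C₁ C₀ q E P (sl gam n)
      (gr gam n) where
  ok := H.ok
  k1 := le_max_left _ _
  k2 := le_max_right _ _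
  z1 := H.z1
  lam1 := H.lam1
  num := {
    i1 := by
      have := H.i2
      omega
    j1 := H.j2.le
    r1 := H.r1.trans H.i1
    s1 := fun l hl => by
      have h1 := H.plc.stp.s1 hl
      have h2 : (0 : ℝ) ≤ y := Nat.cast_nonneg y
      linarith
    s2 := fun l hl => H.plc.stp.s2 hl
    dic := fun l h1 h2 => sl_or_gr h1 h2 }
  iM := by
    have := H.i2
    omega
  jM := H.j2
  ai := H.plc.a1
  rj := H.j1
  ya := H.plc.stp.ya
  dic := {
    s1 := fun l hl => ⟨hl.1, hl.2.1⟩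
    g1 := fun l hl => ⟨hl.1, hl.2.1⟩
    dis := fun l hl hl' => absurd hl'.2.2 (not_le.2 hl.2.2) }
  fr := gd
  bz := fun ω hω l h1 h2 => hg.bz ω (gd ω hω).1 hω l h1 h2

section

variable {D : NDat2} {n K K' J a₀ w₀ z M w i j r r2 r' r'' y X a : ℕ} {lam gam : ℕ → ℝ}
  {κ C₁ C C₀ : ℝ} {q : D.Ω → ℝ} {E : D.Ω → Prop} {P : D.Γ × D.Γ → ℕ → PN}
  {S : Slo D} {c k0 k1 : ℕ} {ys : Fin (k0 + k1) → ℕ} {gs : Fin c → ℕ}

open Classical in
/-- The sum over the group. -/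
theorem Hyp.sum_gs
    (H : Hyp D n K K' J a₀ w₀ z M w i j r r2 r' r'' y a X lam gam κ C₁ C q E P S ys gs)
    (f : ℕ → ℝ) : ∑ u ∈ (range (n + 1)).filter (gr gam n), f u = ∑ v : Fin c, f (gs v) := by
  have h1 : (range (n + 1)).filter (gr gam n) =
      (univ : Finset (Fin c)).map ⟨gs, H.gs_in.injective⟩ := by
    ext u
    simp only [mem_filter, mem_range, mem_map, mem_univ, true_and, Function.Embedding.coeFn_mk]
    constructor
    · intro h
      exact H.gs_on u h.2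
    · rintro ⟨v, rfl⟩
      exact ⟨by
        have := (H.gs_gr v).2.1
        omega, H.gs_gr v⟩
  rw [h1, Finset.sum_map]
  rfl

end

/-- **The change of charts of the cell.** -/
theorem cht_hat (n K K' c : ℕ) (C₀ C₁ : ℝ) (hC₀ : 0 ≤ C₀) (hC₁ : 0 ≤ C₁) : ∃ c' : ℝ, 0 ≤ c' ∧
    ∀ (D : NDat2) (J a₀ w₀ z M w i j r r2 r' r'' y X a k0 k1 : ℕ) (lam gam : ℕ → ℝ) (κ C : ℝ)
      (q : D.Ω → ℝ) (E : D.Ω → Prop) (P : D.Γ × D.Γ → ℕ → PN) (S : Slo D)
      (ys : Fin (k0 + k1) → ℕ) (gs : Fin c → ℕ),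
      Hyp D n K K' J a₀ w₀ z M w i j r r2 r' r'' y a X lam gam κ C₁ C q E P S ys gs →
      Fx D n (max K K') K K' J a₀ w₀ z M i j r r' a y lam gam κ C₁ C₀ q E P (sl gam n)
        (gr gam n) → c' ≤ C →
      (∀ ω, E ω → ∀ l, 1 ≤ l → l ≤ n →
        |zh D i j r a E P ω l - zd D i j r a E P ω l| ≤ exp (c' * z) * ((2 : ℝ) ^ X)⁻¹) ∧
      Cht D z i j r X C E P (rcd D i j r a) (zh D i j r a E P) ys gs
        (cMx D J a₀ z i j r a E P gs) := by
  obtain ⟨c₁, h1, H1⟩ := chr_dif n (max K K') C₀ C₁ hC₀ hC₁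
  obtain ⟨c₂, h2, H2⟩ := zd_two n (max K K') C₀ C₁ hC₀ hC₁
  obtain ⟨c₃, h3, H3⟩ := slo_conv n (max K K') C₀ C₁ hC₀ hC₁
  obtain ⟨c₄, h4, H4⟩ := rep_rly n (max K K') C₀ C₁ C₀ hC₀ hC₁ hC₀
  obtain ⟨e, he⟩ : ∃ e : ℝ, e = c₁ + c₂ + c₃ + c₄ + 2 + c * (c + c₁) := ⟨_, rfl⟩
  have hcc : (0 : ℝ) ≤ c * (c + c₁) := by positivity
  refine ⟨e, by rw [he]; positivity, ?_⟩
  intro D J a₀ w₀ z M w i j r r2 r' r'' y X a k0 k1 lam gam κ C q E P S ys gs H hF hC
  have hzr : (1 : ℝ) ≤ z := by exact_mod_cast hF.z1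
  have he' : ∀ t : ℝ, t ≤ e → exp (t * z) ≤ exp (C * z) := fun t ht =>
    ex_mono (ht.trans hC) hzr
  have hX0 : (0 : ℝ) < 2 ^ X := by positivity
  have hX1 : (1 : ℝ) ≤ 2 ^ X := one_le_pow₀ (by norm_num)
  have hya : (2 : ℝ) ^ (y * z) ≤ 2 ^ (a * z) :=
    pow_le_pow_right₀ (by norm_num) (Nat.mul_le_mul_right z hF.ya)
  have hyX := H.yX
  have hE1 := H.e1
  have hCa : exp (C * z) ≤ 2 ^ (a * z) := by
    calc exp (C * z) ≤ exp (C * z) * 2 ^ X := le_mul_of_one_le_right (exp_pos _).le hX1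
      _ ≤ _ := hyX.trans hya
  have hy2 : (1 : ℝ) / 2 ^ (y * z) ≤ ((2 : ℝ) ^ X)⁻¹ := by
    rw [← one_div]
    refine one_div_le_one_div_of_le hX0 ((le_mul_of_one_le_left hX0.le hE1).trans hyX)
  obtain ⟨ι, hι⟩ : ∃ ι : ℝ, ι = ((2 : ℝ) ^ X)⁻¹ := ⟨_, rfl⟩
  have hι0 : 0 ≤ ι := by rw [hι]; positivity
  rw [← hι] at hy2
  -- the pieces
  obtain ⟨a1, a2⟩ := H1 D K K' J a₀ w₀ z M i j r r' a y lam gam κ q E P (sl gam n) (gr gam n) hF
    ((he' c₁ (by rw [he]; linarith)).trans hCa)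
  have a3 := H3 D K K' J a₀ w₀ z M i j r r' a y lam gam κ q E P (sl gam n) (gr gam n) hF
    ((he' c₃ (by rw [he]; linarith)).trans hCa)
  obtain ⟨-, a4⟩ := H4 D K K' J a₀ w₀ z M i j r r' a y lam gam κ q E P (sl gam n) (gr gam n) hF
    ((he' c₄ (by rw [he]; linarith)).trans hCa)
  obtain ⟨x, hx, hxM⟩ := H.Xz
  have hj : j ≤ M := by
    have := hF.jM
    omega
  have near : ∀ ω, E ω → ∀ l, 1 ≤ l → l ≤ n →
      |zh D i j r a E P ω l - zd D i j r a E P ω l| ≤ exp (c₂ * z) * ι := by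
    intro ω hω l hl1 hln
    obtain ⟨b1, b2⟩ := hat_rcd hF.ok hF.iM.le hj r a (fun ω h => (hF.fr ω h).1) hω
    have := H2 D K K' J a₀ w₀ z M i j r r' a y lam gam κ q E P (sl gam n) (gr gam n) hF x
      (by omega) (hat D E ω) ω (hat_E hω).1 hω b1 (b2 (i + x) (by omega) j hj) l hl1 hln
    rw [← hx, div_eq_mul_inv, ← hι] at this
    exact this
  have n1 : (1 : ℝ) ≤ exp (c₁ * z) := ex_one h1 hzr
  have n2 : (1 : ℝ) ≤ exp (c₂ * z) := ex_one h2 hzr
  have n3 : (1 : ℝ) ≤ exp (c₃ * z) := ex_one h3 hzr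
  have n5 : (3 : ℝ) ≤ exp (2 * z) := by
    have := Real.add_one_le_exp (2 * (z : ℝ))
    linarith
  constructor
  · intro ω hω l hl1 hln
    rw [← hι]
    refine (near ω hω l hl1 hln).trans (mul_le_mul_of_nonneg_right ?_ hι0)
    exact ex_mono (by rw [he]; linarith) hzr
  have hmax : ∀ ω, E ω → Uni (cMx D J a₀ z i j r a E P gs (bb D i j r ω) (rcd D i j r a ω)) := by
    intro ω hω
    have tW := (a4 ω hω).1
    have tP := (hF.fr ω hω).2.2.tri
    refine ⟨fun u => ?_, fun u v huv => ?_⟩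
    · unfold cMx
      rw [Matrix.of_apply]
      unfold cM MM
      rw [kap_zero (atT_tri tP _) (atT_tri tW _) le_rfl, if_pos rfl, sub_zero]
    · have hlt : gs u < gs v := H.gs_in huv
      unfold cMx
      rw [Matrix.of_apply]
      unfold cM MM
      rw [kap_zero (atT_tri tP _) (atT_tri tW _) hlt.le, if_neg hlt.ne, sub_zero]
  have hent : ∀ ω, E ω → ∀ u v,
      |cMx D J a₀ z i j r a E P gs (bb D i j r ω) (rcd D i j r a ω) u v| ≤ exp (c₁ * z) := by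
    intro ω hω u v
    exact a1 ω hω (gs u) (H.gs_gr u).2.1 (gs v)
  refine
    { one := fun ω hω u => (hmax ω hω).one u
      low := fun ω hω u v huv => (hmax ω hω).zero u v huv
      ent := fun ω hω u v => (hent ω hω u v).trans (he' c₁ (by rw [he]; linarith))
      inv := ?_
      fw := ?_
      bw := ?_ }
  · intro ω hω u v
    refine (uni_inv (hmax ω hω) (exp_pos _).le (hent ω hω) u v).trans ?_
    have hc : (c : ℝ) + 1 ≤ exp (c * z) := by
      have h5 := Real.add_one_le_exp ((c : ℝ) * z)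
      have h6 : (c : ℝ) ≤ c * z := le_mul_of_one_le_right (Nat.cast_nonneg c) hzr
      linarith
    have h7 : 1 + c * exp (c₁ * z) ≤ exp ((c + c₁) * z) := by
      calc 1 + c * exp (c₁ * z) ≤ (c + 1) * exp (c₁ * z) := by linarith
        _ ≤ exp (c * z) * exp (c₁ * z) := mul_le_mul_of_nonneg_right hc (exp_pos _).le
        _ = _ := by
          rw [← exp_add]
          ring_nf
    have h8 : (0 : ℝ) ≤ 1 + c * exp (c₁ * z) := by positivity
    calc (1 + c * exp (c₁ * z)) ^ c ≤ exp ((c + c₁) * z) ^ c := pow_le_pow_left₀ h8 h7 _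
      _ = exp ((c * (c + c₁)) * z) := by
        rw [← Real.exp_nat_mul]
        ring_nf
      _ ≤ _ := he' _ (by rw [he]; linarith)
  · intro ω ω' hω hω' hbb hT σ hσ hs
    obtain ⟨b1, b2⟩ := a2 ω ω' hω hω' hbb hT σ hσ (fun l hl => by
      obtain ⟨u, hu⟩ := H.ys_on hl
      rw [← hu]
      exact hs u)
    have hb3 : exp (c₁ * z) * (σ + 1 / 2 ^ (y * z)) ≤ exp (c₁ * z) * (σ + ι) :=
      mul_le_mul_of_nonneg_left (by linarith) (exp_pos _).le
    have hb4 : exp (c₁ * z) * (σ + ι) + 2 * (exp (c₂ * z) * ι) ≤ exp (C * z) * (σ + ι) := by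
      have g1 : exp (c₂ * z) * ι ≤ exp (c₂ * z) * (σ + ι) :=
        mul_le_mul_of_nonneg_left (by linarith) (exp_pos _).le
      have g2 : exp (c₁ * z) + 2 * exp (c₂ * z) ≤ exp (C * z) := by
        calc exp (c₁ * z) + 2 * exp (c₂ * z) ≤ 3 * (exp (c₁ * z) * exp (c₂ * z)) := by nlinarith
          _ ≤ exp (2 * z) * (exp (c₁ * z) * exp (c₂ * z)) :=
            mul_le_mul_of_nonneg_right n5 (by positivity)
          _ = exp ((2 + c₁ + c₂) * z) := by
            rw [← exp_add, ← exp_add]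
            ring_nf
          _ ≤ _ := he' _ (by rw [he]; linarith)
      have g3 := mul_le_mul_of_nonneg_right g2 (show 0 ≤ σ + ι by linarith)
      nlinarith
    constructor
    · intro u
      have hu := H.ys_sl u
      have m1 := near ω hω (ys u) hu.1 hu.2.1.le
      have m2 := near ω' hω' (ys u) hu.1 hu.2.1.le
      have m3 := (b1 (ys u) hu).trans hb3
      rw [← hι]
      refine le_trans ?_ hb4
      rw [abs_le] at m1 m2 m3 ⊢
      constructor <;> linarith [m1.1, m1.2, m2.1, m2.2, m3.1, m3.2]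
    · intro u
      have hu := H.gs_gr u
      have m1 := near ω hω (gs u) hu.1 hu.2.1
      have m2 := near ω' hω' (gs u) hu.1 hu.2.1
      have m3 := (b2 (gs u) hu).trans hb3
      rw [H.sum_gs] at m3
      rw [← hι]
      refine le_trans ?_ hb4
      obtain ⟨s, hs'⟩ : ∃ s : ℝ, s = ∑ v : Fin c, cM D J a₀ z i j r a E P (bb D i j r ω)
        (rcd D i j r a ω) (gs u) (gs v) * (ze D i j r P ω (gs v) - ze D i j r P ω' (gs v)) :=
        ⟨_, rfl⟩
      have hs2 : s = ∑ v : Fin c, cMx D J a₀ z i j r a E P gs (bb D i j r ω)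
        (rcd D i j r a ω) u v * (ze D i j r P ω (gs v) - ze D i j r P ω' (gs v)) := hs'
      rw [← hs2]
      rw [← hs'] at m3
      rw [abs_le] at m1 m2 m3 ⊢
      constructor <;> linarith [m1.1, m1.2, m2.1, m2.2, m3.1, m3.2]
  · intro ω ω' hω hω' hbb hT σ hσ hs u
    have hb : ∀ l, sl gam n l → |zd D i j r a E P ω l - zd D i j r a E P ω' l| ≤
        σ + 2 * (exp (c₂ * z) * ι) := by
      intro l hl
      obtain ⟨v, hv⟩ := H.ys_on hl
      have m1 := near ω hω l hl.1 hl.2.1.le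
      have m2 := near ω' hω' l hl.1 hl.2.1.le
      have m3 := hs v
      rw [hv] at m3
      rw [abs_le] at m1 m2 m3 ⊢
      constructor <;> linarith [m1.1, m1.2, m2.1, m2.2, m3.1, m3.2]
    refine (a3 ω ω' hω hω' hbb hT _ (by positivity) hb (ys u) (H.ys_sl u)).trans ?_
    rw [← hι]
    have g1 : σ + 2 * (exp (c₂ * z) * ι) + 1 / 2 ^ (y * z) ≤ 3 * exp (c₂ * z) * (σ + ι) := by
      nlinarith [mul_nonneg (show (0 : ℝ) ≤ exp (c₂ * z) - 1 by linarith) hσ,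
        mul_nonneg (show (0 : ℝ) ≤ exp (c₂ * z) - 1 by linarith) hι0]
    calc exp (c₃ * z) * (σ + 2 * (exp (c₂ * z) * ι) + 1 / 2 ^ (y * z)) ≤
        exp (c₃ * z) * (3 * exp (c₂ * z) * (σ + ι)) :=
          mul_le_mul_of_nonneg_left g1 (exp_pos _).le
      _ = (3 * (exp (c₂ * z) * exp (c₃ * z))) * (σ + ι) := by ring
      _ ≤ (exp (2 * z) * (exp (c₂ * z) * exp (c₃ * z))) * (σ + ι) :=
        mul_le_mul_of_nonneg_right (mul_le_mul_of_nonneg_right n5 (by positivity)) (by linarith)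
      _ = exp ((2 + c₂ + c₃) * z) * (σ + ι) := by
        rw [← exp_add, ← exp_add]
        ring_nf
      _ ≤ _ := mul_le_mul_of_nonneg_right (he' _ (by rw [he]; linarith)) (by linarith)

end Pool.P5
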