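import Pool.Agent.H98.P5.NF
import Pool.Agent.H98.P5.Dch
import Pool.Agent.H98.P4.NFvA

/-!
# The visible digits (P5): determinism

`VisD`: the visible digits `N, Y` (over the visible frame on the event `E`) and the visible record
`Sv`. The lemmas: what equal digits give, and what equal deeper contexts give.
-/

set_option autoImplicit false

namespace Pool.P5N

open Finset Real
open Pool.Agent.H49.Ent Pool.Agent.H32.Dense Pool.STK Pool.STAT Pool.MIC Pool.P5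
open Pool.MIC.Frm
open Pool.BFL (Pb)
open Pool.P4 (t0 rt pp PthC FraC bb ze zt z0 be cl1 dg dgp Ry cb LLC tq GoodS FrP err Dch yD rcd
  zdv)
open Pool.P4N (Ry_one dg_eq dg_sub dgp_eq dg_bd rt_bd rt_T fl_eq fl_sub few_ev CH_one_low
  nd_div sh_bd log_4X DchX dch_x dch_mono dch_near dgp_lipR)

/-- The digits and the record of the visible chart. -/
structure VisD (D : NDat2) (z X : ℕ) (Cd A₀ : ℝ) (q : D.Ω → ℝ) (E : D.Ω → Prop) {c k : ℕ}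
    (ys : Fin k → ℕ) (gs : Fin c → ℕ) {Sg σ : Type} (s : D.Ω → Sg) (zd : D.Ω → ℕ → ℝ)
    (N : D.Ω → Fin c → ℤ) (Y : D.Ω → Fin k → ℤ) (Sv : D.Ω → σ) : Prop where
  nN : ∀ ω, 0 < q ω → E ω → N ω = nuD z X Cd zd gs ω
  yY : ∀ ω, 0 < q ω → E ω → Y ω = yD z X Cd zd ys ω
  nB : ∀ ω, 0 < q ω → ∀ u, |(N ω u : ℝ)| ≤ exp (A₀ * (z + X))
  yB : ∀ ω, 0 < q ω → ∀ a, |(Y ω a : ℝ)| ≤ exp (A₀ * (z + X))
  dS : Det q Sv s
  Sd : Det q (fun ω => (E ω, s ω)) Sv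

/-- The units. -/
theorem ry_rg {Cd : ℝ} (hCd : 0 ≤ Cd) (z : ℕ) : 1 ≤ Ry z Cd ∧ 2 * Ry z Cd ≤ Rg z Cd ∧ 0 < Rg z Cd ∧
    Rg z Cd = 2 * (Ry z Cd * (Ry z Cd * Ry z Cd)) := by
  have h1 := Ry_one hCd z
  exact ⟨h1, (Rg_Ry hCd z).1, Rg_pos z Cd, Pool.P5N.Rg_eq z Cd⟩

section

variable {D : NDat2} {n K K' J a₀ w₀ z M w i j r r2 r' r'' y a X : ℕ} {lam gam : ℕ → ℝ}
  {κ C₁ C : ℝ} {q : D.Ω → ℝ} {E : D.Ω → Prop} {P : D.Γ × D.Γ → ℕ → PN}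
  {S : Slo D} {c k0 k1 : ℕ} {ys : Fin (k0 + k1) → ℕ} {gs : Fin c → ℕ}
  {Sg σ : Type} {s : D.Ω → Sg} {zd : D.Ω → ℕ → ℝ} {Cd A₀ : ℝ}
  {N : D.Ω → Fin c → ℤ} {Y : D.Ω → Fin (k0 + k1) → ℤ} {Sv : D.Ω → σ}
  (H : Hyp D n K K' J a₀ w₀ z M w i j r r2 r' r'' y a X lam gam κ C₁ C q E P S ys gs)
  (G : DchX D n z i j r X Cd q E P s zd) (V : VisD D z X Cd A₀ q E ys gs s zd N Y Sv)
  (hCd : 0 ≤ Cd)

include H G V hCd

/-- One coordinate of the group. -/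
theorem zd_gr {ω ω' : D.Ω} (h1 : 0 < q ω) (h2 : 0 < q ω') (hE : E ω) (hE' : E ω') {u : Fin c}
    (e : N ω u = N ω' u) : |zd ω (gs u) - zd ω' (gs u)| ≤ Rg z Cd * ((2 : ℝ) ^ X)⁻¹ := by
  obtain ⟨hRy, hRg1, hRg0, hRg⟩ := ry_rg hCd z
  have hu := H.gs_n u
  have b1 : |zd ω (gs u)| ≤ Ry z Cd := G.bd ω h1 hE _ hu.1 hu.2
  have b2 : |zd ω' (gs u)| ≤ Ry z Cd := G.bd ω' h2 hE' _ hu.1 hu.2
  rw [V.nN ω h1 hE, V.nN ω' h2 hE'] at e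
  unfold nuD at e
  have hdiv : ∀ x : ℝ, |x| ≤ Ry z Cd → |x / Rg z Cd| ≤ 1 := by
    intro x hx
    rw [abs_div, abs_of_pos hRg0, div_le_one hRg0]
    linarith
  have e3 := dg_eq (hdiv _ b1) (hdiv _ b2) e
  rw [← sub_div, abs_div, abs_of_pos hRg0, div_le_iff₀ hRg0] at e3
  linarith

/-- The slow coordinates. -/
theorem zd_sl {ω ω' : D.Ω} (h1 : 0 < q ω) (h2 : 0 < q ω') (hE : E ω) (hE' : E ω') {b : Fin (k0 + k1)}
    (e : Y ω b = Y ω' b) : |zd ω (ys b) - zd ω' (ys b)| ≤ Rg z Cd * ((2 : ℝ) ^ X)⁻¹ := by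
  obtain ⟨hRy, hRg1, hRg0, hRg⟩ := ry_rg hCd z
  have hi : (0 : ℝ) < ((2 : ℝ) ^ X)⁻¹ := by positivity
  have ha := H.ys_n b
  have b1 : |zd ω (ys b)| ≤ Ry z Cd := G.bd ω h1 hE _ ha.1 ha.2
  have b2 : |zd ω' (ys b)| ≤ Ry z Cd := G.bd ω' h2 hE' _ ha.1 ha.2
  rw [V.yY ω h1 hE, V.yY ω' h2 hE'] at e
  unfold yD at e
  have hR2 : 0 < 2 * Ry z Cd := by linarith
  obtain ⟨c1, c2⟩ := abs_le.1 b1
  obtain ⟨d1, d2⟩ := abs_le.1 b2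
  have e3 := dgp_eq (div_nonneg (by linarith) hR2.le) ((div_le_one hR2).2 (by linarith))
    (div_nonneg (by linarith) hR2.le) ((div_le_one hR2).2 (by linarith)) e
  rw [← sub_div, abs_div, abs_of_pos hR2, div_le_iff₀ hR2] at e3
  have e4 : zd ω (ys b) + Ry z Cd - (zd ω' (ys b) + Ry z Cd) = zd ω (ys b) - zd ω' (ys b) := by
    ring
  rw [e4] at e3
  nlinarith

/-- The coordinates before the target. -/
theorem zd_low {ω ω' : D.Ω} (h1 : 0 < q ω) (h2 : 0 < q ω') (hE : E ω) (hE' : E ω') {n₀ : Fin c}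
    (hn : gs n₀ = n) (hN : ∀ u, u ≠ n₀ → N ω u = N ω' u) (hY : Y ω = Y ω') {l : ℕ}
    (hl1 : 1 ≤ l) (hln : l < n) : |zd ω l - zd ω' l| ≤ Rg z Cd * ((2 : ℝ) ^ X)⁻¹ := by
  rcases sl_or_gr (gam := gam) hl1 hln.le with hs | hs
  · obtain ⟨b, ha⟩ := H.ys_on hs
    have := zd_sl H G V hCd h1 h2 hE hE' (congrFun hY b)
    rwa [ha] at this
  · obtain ⟨u, hu⟩ := H.gs_on l hs
    have := zd_gr H G V hCd h1 h2 hE hE' (hN u (by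
      intro e
      rw [e, hn] at hu
      omega))
    rwa [hu] at this

/-- The heights of the base over the visible labels. -/
theorem sh_lowD {ω ω' : D.Ω} (h1 : 0 < q ω) (h2 : 0 < q ω') (hE : E ω) (hE' : E ω')
    {n₀ : Fin c} (hn : gs n₀ = n) (hN : ∀ u, u ≠ n₀ → N ω u = N ω' u) (hY : Y ω = Y ω')
    (hS : Sv ω = Sv ω') {l : ℕ} (hl1 : 1 ≤ l) (hln : l < n) :
    |2 ^ D.g i j l * D.sh i j ω l - 2 ^ D.g i j l * D.sh i j ω' l| ≤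
      Ry z Cd * (Rg z Cd * ((2 : ℝ) ^ X)⁻¹) := by
  obtain ⟨hRy, hRg1, hRg0, hRg⟩ := ry_rg hCd z
  have hi : (0 : ℝ) < ((2 : ℝ) ^ X)⁻¹ := by positivity
  exact G.toS ω ω' h1 h2 hE hE' (V.dS ω ω' h1 h2 hS) l hl1 hln.le _ (by nlinarith)
    fun k' hk1 hkl => zd_low H G V hCd h1 h2 hE hE' hn hN hY hk1 (by omega)

/-- The target. -/
theorem nu_nearD {ω ω' : D.Ω} (h1 : 0 < q ω) (h2 : 0 < q ω') (hE : E ω) (hE' : E ω')
    {n₀ : Fin c} (hn : gs n₀ = n) (hN : ∀ u, u ≠ n₀ → N ω u = N ω' u) (hY : Y ω = Y ω')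
    (hS : Sv ω = Sv ω') (hnd : D.nd n i j X ω = D.nd n i j X ω') :
    |((N ω n₀ - N ω' n₀ : ℤ) : ℝ)| ≤ Ry z Cd * Ry z Cd + 1 := by
  obtain ⟨hRy, hRg1, hRg0, hRg⟩ := ry_rg hCd z
  have hp : (0 : ℝ) < 2 ^ X := by positivity
  have hi : (0 : ℝ) < ((2 : ℝ) ^ X)⁻¹ := by positivity
  have hpi : (2 : ℝ) ^ X * ((2 : ℝ) ^ X)⁻¹ = 1 := mul_inv_cancel₀ hp.ne'
  have k1 : |zd ω n - zd ω' n| ≤ Ry z Cd * (Ry z Cd * (Rg z Cd * ((2 : ℝ) ^ X)⁻¹)) := by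
    have hRR : 1 ≤ Ry z Cd * Rg z Cd := by nlinarith
    refine G.ofS ω ω' h1 h2 hE hE' (V.dS ω ω' h1 h2 hS) n H.n1 le_rfl _ (by
      rw [← mul_assoc]
      nlinarith) fun k' hk1 hkn => ?_
    rcases lt_or_eq_of_le hkn with hk | hk
    · exact sh_lowD H G V hCd h1 h2 hE hE' hn hN hY hS hk1 hk
    · subst hk
      unfold NDat2.nd at hnd
      have e1 := fl_eq hnd
      rw [pow_add] at e1
      have e2 : (2 : ℝ) ^ D.g i j k' * 2 ^ X * D.sh i j ω k' -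
          2 ^ D.g i j k' * 2 ^ X * D.sh i j ω' k' =
          2 ^ X * (2 ^ D.g i j k' * D.sh i j ω k' - 2 ^ D.g i j k' * D.sh i j ω' k') := by ring
      rw [e2, abs_mul, abs_of_pos hp] at e1
      have e3 : |2 ^ D.g i j k' * D.sh i j ω k' - 2 ^ D.g i j k' * D.sh i j ω' k'| ≤
          ((2 : ℝ) ^ X)⁻¹ := by
        rw [← one_div, le_div_iff₀ hp]
        linarith
      refine e3.trans ?_
      have e4 : 1 ≤ Ry z Cd * Rg z Cd := by nlinarith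
      calc ((2 : ℝ) ^ X)⁻¹ = 1 * ((2 : ℝ) ^ X)⁻¹ := by ring
        _ ≤ (Ry z Cd * Rg z Cd) * ((2 : ℝ) ^ X)⁻¹ := mul_le_mul_of_nonneg_right e4 hi.le
        _ = _ := by ring
  have hgn := H.gs_n n₀
  have b1 : |zd ω n| ≤ Ry z Cd := G.bd ω h1 hE _ H.n1 le_rfl
  have b2 : |zd ω' n| ≤ Ry z Cd := G.bd ω' h2 hE' _ H.n1 le_rfl
  have hdiv : ∀ x : ℝ, |x| ≤ Ry z Cd → |x / Rg z Cd| ≤ 1 := by
    intro x hx
    rw [abs_div, abs_of_pos hRg0, div_le_one hRg0]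
    linarith
  have e8 := dg_sub (X := X) (hdiv _ b1) (hdiv _ b2)
  rw [← sub_div, abs_div, abs_of_pos hRg0] at e8
  rw [V.nN ω h1 hE, V.nN ω' h2 hE']
  unfold nuD
  rw [hn]
  refine e8.trans ?_
  have e9 : (2 : ℝ) ^ X * (|zd ω n - zd ω' n| / Rg z Cd) ≤ Ry z Cd * Ry z Cd := by
    rw [← mul_div_assoc, div_le_iff₀ hRg0]
    calc (2 : ℝ) ^ X * |zd ω n - zd ω' n| ≤
        2 ^ X * (Ry z Cd * (Ry z Cd * (Rg z Cd * ((2 : ℝ) ^ X)⁻¹))) :=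
          mul_le_mul_of_nonneg_left k1 hp.le
      _ = (2 ^ X * ((2 : ℝ) ^ X)⁻¹) * (Ry z Cd * Ry z Cd * Rg z Cd) := by ring
      _ = Ry z Cd * Ry z Cd * Rg z Cd := by rw [hpi, one_mul]
  linarith

omit V hCd in
/-- **The deeper context knows the exact point to its depth.** -/
theorem zd_ctx {v : ℕ} (hx : v * z ≤ X) (hM : i + v + r'' < M) {ω ω' : D.Ω} (h1 : 0 < q ω)
    (h2 : 0 < q ω') (hE : E ω) (hE' : E ω') (e : (D.c (i - 1) (j - r) ω, (D.c (i + v) j ω, D.T ω)) =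
      (D.c (i - 1) (j - r) ω', (D.c (i + v) j ω', D.T ω'))) {l : ℕ} (hl1 : 1 ≤ l) (hln : l ≤ n) :
    |zd ω l - zd ω' l| ≤ Ry z Cd * (5 * (exp (C * z) / 2 ^ (v * z))) := by
  obtain ⟨f1, f2, f3⟩ := H.up (i' := i + v) (by omega) hM h1 h2 e
  have he := H.e1
  obtain ⟨τ, hτ⟩ : ∃ τ, τ = exp (C * z) / 2 ^ (y * z) := ⟨_, rfl⟩
  have ht := H.tau
  have hg := H.geo
  rw [← hτ] at ht hg
  have hpX : (0 : ℝ) < 2 ^ X := by positivity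
  have hpv : (0 : ℝ) < 2 ^ (v * z) := by positivity
  have hτ1 : τ ≤ ((2 : ℝ) ^ X)⁻¹ := by
    rw [← one_div, le_div_iff₀ hpX]
    linarith
  have hvX : ((2 : ℝ) ^ X)⁻¹ ≤ ((2 : ℝ) ^ (v * z))⁻¹ :=
    inv_anti₀ hpv (pow_le_pow_right₀ (by norm_num) hx)
  have hve : ((2 : ℝ) ^ (v * z))⁻¹ ≤ exp (C * z) / 2 ^ (v * z) := by
    rw [← one_div]
    exact div_le_div_of_nonneg_right he hpv.le
  obtain ⟨ε, hε⟩ : ∃ ε, ε = exp (C * z) / 2 ^ (v * z) := ⟨_, rfl⟩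
  rw [← hε] at hve ⊢
  have hτε : τ ≤ ε := (hτ1.trans hvX).trans hve
  have x1 := H.ok.X_zero ω
  have x2 := H.ok.X_zero ω'
  have hwJ : w ≤ J := by
    have := H.wX
    omega
  obtain ⟨r0, r1⟩ := rt_bd hwJ x1
  have rr := rt_T (J := J) (w := w) x1 x2 f3
  refine G.ofE ω ω' h1 h2 hE hE' f1 f3 l hl1 hln (5 * ε) ?_ ?_
  · have : 0 < ε := lt_of_lt_of_le (by positivity) hve
    linarith [hvX.trans hve]
  · intro k' hk1 hkl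
    have hkn := hkl.trans hln
    obtain ⟨d1, d2, d3⟩ := H.dep.ctx (i + v) (by omega) (by omega) ω ω' h1 h2 hE hE' f1 f2 w
      H.w1 H.w2 (by rw [f3]) k' hk1 hkn
    rw [Nat.add_sub_cancel_left, ← hε] at d1 d2 d3
    have e6 := mul01 r0 r1 d2
    have e7 := mul01 (pow_nonneg r0 2) (pow_le_one₀ r0 r1) d3
    rcases sl_or_gr (gam := gam) hk1 hkn with hs | hs
    · rcases (sl_iff H.g3 k').1 hs with hs | hs
      · obtain ⟨a1, -, -⟩ := hg.slow0 ω h1 hE k' hs w H.w1 H.w2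
        obtain ⟨a2, -, -⟩ := hg.slow0 ω' h2 hE' k' hs w H.w1 H.w2
        rw [abs_le] at a1 a2 d1 ⊢
        constructor <;> linarith [a1.1, a1.2, a2.1, a2.2, d1.1, d1.2]
      · obtain ⟨a1, -⟩ := hg.slow1 ω h1 hE k' hs w H.w1 H.w2
        obtain ⟨a2, -⟩ := hg.slow1 ω' h2 hE' k' hs w H.w1 H.w2
        rw [← rr] at a2
        rw [abs_le] at a1 a2 d1 e6 ⊢
        constructor <;> linarith [a1.1, a1.2, a2.1, a2.2, d1.1, d1.2, e6.1, e6.2]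
    · have a1 := hg.grp ω h1 hE k' hs w H.w1 H.w2
      have a2 := hg.grp ω' h2 hE' k' hs w H.w1 H.w2
      rw [← rr] at a2
      rw [abs_le] at a1 a2 d1 e6 e7 ⊢
      constructor <;> linarith [a1.1, a1.2, a2.1, a2.2, d1.1, d1.2, e6.1, e6.2, e7.1, e7.2]

/-- The exact point over the closed frame, from the visible digits. -/
theorem ze_low {ω ω' : D.Ω} (h1 : 0 < q ω) (h2 : 0 < q ω') (hE : E ω) (hE' : E ω')
    (hbb : bb D i j r ω = bb D i j r ω') (hT : D.T ω = D.T ω') {n₀ : Fin c}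
    (hn : gs n₀ = n) (hN : ∀ u, u ≠ n₀ → N ω u = N ω' u) (hY : Y ω = Y ω') {l : ℕ}
    (hl1 : 1 ≤ l) (hln : l < n) :
    |ze D i j r P ω l - ze D i j r P ω' l| ≤ Ry z Cd * (Rg z Cd * ((2 : ℝ) ^ X)⁻¹) := by
  obtain ⟨hRy, hRg1, hRg0, hRg⟩ := ry_rg hCd z
  have hi : (0 : ℝ) < ((2 : ℝ) ^ X)⁻¹ := by positivity
  refine G.toE ω ω' h1 h2 hE hE' hbb hT l hl1 hln.le _ ?_ fun k' hk1 hkl =>
    zd_low H G V hCd h1 h2 hE hE' hn hN hY hk1 (by omega)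
  nlinarith

end

end Pool.P5N
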