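import Pool.Agent.H98.P5.NFvA

/-!
# The visible digits (P5): few values
-/

set_option autoImplicit false

namespace Pool.P5N

open Finset Real
open Pool.Agent.H49.Ent Pool.Agent.H32.Dense Pool.STK Pool.STAT Pool.MIC Pool.P5
open Pool.MIC.Frm
open Pool.BFL (Pb)
open Pool.P4 (t0 rt pp PthC FraC bb ze zt z0 be cl1 dg dgp Ry cb LLC tq GoodS FrP err Dch yD rcd
  zdv aE few_exp few_exp0 div_lipR div_absR mul_expz two_pow_exp floor_near dg_lipR)
open Pool.P4N (Ry_one dg_eq dg_sub dgp_eq dg_bd rt_bd rt_T fl_eq fl_sub few_ev CH_one_low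
  nd_div sh_bd log_4X DchX dch_x dch_mono dch_near dgp_lipR)

theorem dgR5 {X z : ℕ} {C : ℝ} (x y : ℝ) : |(dg X (x / Rg z C) : ℝ) - dg X (y / Rg z C)| ≤
    2 ^ X / Rg z C * |x - y| + 1 := by
  have hR := Rg_pos z C
  have h1 := dg_lipR (X := X) (x / Rg z C) (y / Rg z C)
  rw [← sub_div, abs_div, abs_of_pos hR] at h1
  calc _ ≤ _ := h1
    _ = _ := by ring

section

variable {D : NDat2} {n K K' J a₀ w₀ z M w i j r r2 r' r'' y a X : ℕ} {lam gam : ℕ → ℝ}
  {κ C₁ C : ℝ} {q : D.Ω → ℝ} {E : D.Ω → Prop} {P : D.Γ × D.Γ → ℕ → PN}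
  {S : Slo D} {c k0 k1 : ℕ} {ys : Fin (k0 + k1) → ℕ} {gs : Fin c → ℕ}
  {Sg σ : Type} {s : D.Ω → Sg} {zd : D.Ω → ℕ → ℝ} {Cd A₀ : ℝ}
  {N : D.Ω → Fin c → ℤ} {Y : D.Ω → Fin (k0 + k1) → ℤ} {Sv : D.Ω → σ}
  (H : Hyp D n K K' J a₀ w₀ z M w i j r r2 r' r'' y a X lam gam κ C₁ C q E P S ys gs)
  (G : DchX D n z i j r X Cd q E P s zd) (V : VisD D z X Cd A₀ q E ys gs s zd N Y Sv)
  (hCd : 0 ≤ Cd)

include H G V hCd

/-- **(few, 1v)** The first digits of the group, given the deeper context. -/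
theorem few1v (hA : 0 ≤ A₀) {x v : ℕ} (hx : x ≤ X) (hv : v * z ≤ x) (hv' : x < v * z + z)
    (hM : i + v + r'' < M) {S' : Type} (B : D.Ω → S') :
    CH q (fun ω (u : Fin c) => N ω u / 2 ^ (X - x))
      (fun ω => (B ω, (D.c (i - 1) (j - r) ω, (D.c (i + v) j ω, D.T ω)))) ≤
      aE c (6 + C + A₀) * (z + X * Pb q (fun ω => ¬ E ω)) := by
  have hz := H.z1
  have z1 : (1 : ℝ) ≤ z := by exact_mod_cast hz
  have x0 : (0 : ℝ) ≤ X := Nat.cast_nonneg X
  have C0 : 0 ≤ C := by linarith [H.Cg]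
  have key := few_exp0 H.ok.isLaw
    (fun ω (u : Fin c) => N ω u / 2 ^ (X - x))
    (fun ω => (B ω, (D.c (i - 1) (j - r) ω, (D.c (i + v) j ω, D.T ω)))) E (A := 6 + C + A₀) (X := X)
    (by positivity) hz ?_ ?_
  · rwa [Fintype.card_fin] at key
  · intro ω ω' hω hω' hE hE' e u
    obtain ⟨hRy, hRg1, hRg0, hRg⟩ := ry_rg hCd z
    have e1 := (Prod.ext_iff.mp e).2
    have hu := H.gs_n u
    have h1 := zd_ctx H G (hv.trans hx) hM hω hω' hE hE' e1 hu.1 hu.2
    have h2 := dgR5 (X := X) (z := z) (C := Cd) (zd ω (gs u)) (zd ω' (gs u))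
    have h3 : 2 ^ X / Rg z Cd * |zd ω (gs u) - zd ω' (gs u)| ≤
        5 / 2 * exp (C * z) * 2 ^ (X - v * z) := by
      have h4 : (2 : ℝ) ^ X = 2 ^ (X - v * z) * 2 ^ (v * z) := by
        rw [← pow_add]
        congr 1
        omega
      have h5 : Ry z Cd / Rg z Cd ≤ 1 / 2 := by
        rw [div_le_iff₀ hRg0]
        linarith
      calc _ ≤ 2 ^ X / Rg z Cd * (Ry z Cd * (5 * (exp (C * z) / 2 ^ (v * z)))) :=
            mul_le_mul_of_nonneg_left h1 (by positivity)
        _ = (Ry z Cd / Rg z Cd) * (5 * exp (C * z) * (2 ^ X / 2 ^ (v * z))) := by ring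
        _ ≤ (1 / 2) * (5 * exp (C * z) * (2 ^ X / 2 ^ (v * z))) :=
            mul_le_mul_of_nonneg_right h5 (by positivity)
        _ = 5 / 2 * exp (C * z) * 2 ^ (X - v * z) := by
            rw [h4, mul_div_assoc, div_self (by positivity)]
            ring
    have h4 := div_lipR (m := X - x) (h2.trans (add_le_add_left h3 1))
    rw [V.nN ω hω hE, V.nN ω' hω' hE']
    unfold nuD
    refine h4.trans ?_
    have h5 : (2 : ℝ) ^ (X - v * z) / 2 ^ (X - x) ≤ 2 ^ z := by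
      rw [div_le_iff₀ (by positivity), ← pow_add]
      exact pow_le_pow_right₀ (by norm_num) (by omega)
    have h6 : (1 : ℝ) / 2 ^ (X - x) ≤ 1 := by
      rw [div_le_one (by positivity)]
      exact one_le_pow₀ (by norm_num)
    have h7 := two_pow_exp z
    have h8 := mul_expz (a := 5) (b := C + 1) (by norm_num) hz
    have h9 : exp ((C + 1) * z) = exp (C * z) * exp z := by
      rw [← Real.exp_add]
      congr 1
      ring
    have h10 : (1 : ℝ) ≤ exp z := Real.one_le_exp (by linarith)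
    have h11 := H.e1
    have h12 : (1 : ℝ) ≤ exp (C * z) * exp z := by nlinarith
    have h13 : exp ((5 + (C + 1)) * z) ≤ exp ((6 + C + A₀) * z) :=
      Real.exp_le_exp.mpr (by nlinarith)
    have h14 : 5 / 2 * exp (C * z) * 2 ^ (X - v * z) / 2 ^ (X - x) ≤
        5 / 2 * (exp (C * z) * exp z) := by
      calc 5 / 2 * exp (C * z) * 2 ^ (X - v * z) / 2 ^ (X - x) =
          5 / 2 * exp (C * z) * ((2 : ℝ) ^ (X - v * z) / 2 ^ (X - x)) := by ring
        _ ≤ 5 / 2 * exp (C * z) * exp z :=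
            mul_le_mul_of_nonneg_left (h5.trans h7) (by positivity)
        _ = _ := by ring
    rw [h9] at h8
    rw [add_div]
    linarith
  · intro ω hω u
    have h0 : (1 : ℝ) ≤ exp (A₀ * (z + X)) := Real.one_le_exp (by positivity)
    have h1 := div_absR (m := X - x) h0 (V.nB ω hω u)
    have h3 : (2 : ℝ) * exp (A₀ * (z + X)) ≤ exp ((6 + C + A₀) * (z + X)) := by
      have h4 : (2 : ℝ) ≤ exp 1 := by
        have := Real.add_one_le_exp (1 : ℝ)
        linarith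
      calc (2 : ℝ) * exp (A₀ * (z + X)) ≤ exp 1 * exp (A₀ * (z + X)) :=
            mul_le_mul_of_nonneg_right h4 (Real.exp_pos _).le
        _ = exp (1 + A₀ * (z + X)) := (Real.exp_add _ _).symm
        _ ≤ _ := Real.exp_le_exp.mpr (by nlinarith)
    exact h1.trans h3

/-- **(few, 8v)** The entropy of the slow coordinates, given the deeper context. -/
theorem few8v (hA : 0 ≤ A₀) {v : ℕ} (hx : v * z ≤ X) (hM : i + v + r'' < M) {S' : Type}
    (B : D.Ω → S') :
    CH q Y (fun ω => (B ω, (D.c (i - 1) (j - r) ω, (D.c (i + v) j ω, D.T ω)))) ≤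
      ((k0 + k1 : ℕ) : ℝ) * (((X - v * z : ℕ) : ℝ) * Real.log 2) +
        aE (k0 + k1) (4 + C + A₀) * (z + X * Pb q (fun ω => ¬ E ω)) := by
  have hz := H.z1
  have z1 : (1 : ℝ) ≤ z := by exact_mod_cast hz
  have x0 : (0 : ℝ) ≤ X := Nat.cast_nonneg X
  have C0 : 0 ≤ C := by linarith [H.Cg]
  have key := few_exp H.ok.isLaw Y
    (fun ω => (B ω, (D.c (i - 1) (j - r) ω, (D.c (i + v) j ω, D.T ω)))) E (A := 4 + C + A₀) (X := X)
    (by positivity) (X - v * z) hz ?_ ?_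
  · rwa [Fintype.card_fin] at key
  · intro ω ω' hω hω' hE hE' e b
    obtain ⟨hRy, hRg1, hRg0, hRg⟩ := ry_rg hCd z
    have e1 := (Prod.ext_iff.mp e).2
    have ha := H.ys_n b
    have h1 := zd_ctx H G hx hM hω hω' hE hE' e1 ha.1 ha.2
    have hR2 : 0 < 2 * Ry z Cd := by linarith
    have h2 := dgp_lipR (X := X) ((zd ω (ys b) + Ry z Cd) / (2 * Ry z Cd))
      ((zd ω' (ys b) + Ry z Cd) / (2 * Ry z Cd))
    have h2' : (zd ω (ys b) + Ry z Cd) / (2 * Ry z Cd) - (zd ω' (ys b) + Ry z Cd) / (2 * Ry z Cd)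
        = (zd ω (ys b) - zd ω' (ys b)) / (2 * Ry z Cd) := by
      rw [← sub_div]
      congr 1
      ring
    rw [h2', abs_div, abs_of_pos hR2] at h2
    have h3 : (2 : ℝ) ^ X * (|zd ω (ys b) - zd ω' (ys b)| / (2 * Ry z Cd)) ≤
        5 / 2 * exp (C * z) * 2 ^ (X - v * z) := by
      have h4 : (2 : ℝ) ^ X = 2 ^ (X - v * z) * 2 ^ (v * z) := by
        rw [← pow_add]
        congr 1
        omega
      calc _ ≤ 2 ^ X * ((Ry z Cd * (5 * (exp (C * z) / 2 ^ (v * z)))) / (2 * Ry z Cd)) :=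
            mul_le_mul_of_nonneg_left (div_le_div_of_nonneg_right h1 hR2.le) (by positivity)
        _ = (Ry z Cd / Ry z Cd) * (5 / 2 * exp (C * z) * (2 ^ X / 2 ^ (v * z))) := by ring
        _ = 5 / 2 * exp (C * z) * 2 ^ (X - v * z) := by
            rw [div_self (by positivity), one_mul, h4, mul_div_assoc, div_self (by positivity)]
            ring
    rw [V.yY ω hω hE, V.yY ω' hω' hE']
    unfold yD
    refine h2.trans ?_
    have h5 : (1 : ℝ) ≤ 2 ^ (X - v * z) := one_le_pow₀ (by norm_num)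
    have h11 := H.e1
    have h6 := mul_expz (a := 4) (b := C) (by norm_num) hz
    have h7 : exp ((4 + C) * z) ≤ exp ((4 + C + A₀) * z) :=
      Real.exp_le_exp.mpr (by nlinarith)
    have h8 : (1 : ℝ) ≤ exp (C * z) * 2 ^ (X - v * z) := by nlinarith
    have h9 : 4 * exp (C * z) * 2 ^ (X - v * z) ≤ exp ((4 + C + A₀) * z) * 2 ^ (X - v * z) :=
      mul_le_mul_of_nonneg_right (h6.trans h7) (by positivity)
    linarith
  · intro ω hω b
    refine (V.yB ω hω b).trans (Real.exp_le_exp.mpr ?_)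
    have : (0 : ℝ) ≤ (4 + C) * (z + X) := by positivity
    nlinarith

/-- **(few, 6v)** The digits over the visible labels of the deeper place, from the visible
digits. -/
theorem few6v {v U : ℕ} (hx : (v + U) * z = X) (hM : i + v + r'' < M) {n₀ : Fin c}
    (hn : gs n₀ = n) {S' : Type} (B : D.Ω → S') :
    CH q (D.vd n (i + v) j (U * z)) (fun ω => (Y ω, ((fun u : {u : Fin c // u ≠ n₀} => N ω u),
        (B ω, (D.c (i - 1) (j - r) ω, (D.c (i + v) j ω, D.T ω)))))) ≤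
      aE (n - 1) (3 + 2 * C₁ + C + 4 * Cd) * (z + X * Pb q (fun ω => ¬ E ω)) := by
  have hz := H.z1
  have z1 : (1 : ℝ) ≤ z := by exact_mod_cast hz
  have x0 : (0 : ℝ) ≤ X := Nat.cast_nonneg X
  have C0 : 0 ≤ C := by linarith [H.Cg]
  have C10 : 0 ≤ C₁ := by linarith [H.C1]
  have key := few_exp0 H.ok.isLaw (D.vd n (i + v) j (U * z))
    (fun ω => (Y ω, ((fun u : {u : Fin c // u ≠ n₀} => N ω u),
        (B ω, (D.c (i - 1) (j - r) ω, (D.c (i + v) j ω, D.T ω)))))) E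
    (A := 3 + 2 * C₁ + C + 4 * Cd) (X := X) (by positivity) hz ?_ ?_
  · rwa [Fintype.card_fin] at key
  · intro ω ω' hω hω' hE hE' e l
    obtain ⟨hRy, hRg1, hRg0, hRg⟩ := ry_rg hCd z
    have e1 : Y ω = Y ω' := (Prod.ext_iff.mp e).1
    have e2 := (Prod.ext_iff.mp e).2
    have e3 : ∀ u, u ≠ n₀ → N ω u = N ω' u := fun u hu =>
      congrFun (Prod.ext_iff.mp e2).1 ⟨u, hu⟩
    have e4 := (Prod.ext_iff.mp (Prod.ext_iff.mp e2).2).2
    obtain ⟨f1, f2, f3⟩ := H.up (i' := i + v) (by omega) hM hω hω' e4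
    have hl : (l : ℕ) + 1 < n := by
      have := l.2
      omega
    have h1 := H.dep.toV (i + v) (by omega) (by omega) ω ω' hω hω' hE hE' f1 f2 f3 (l + 1)
      (by omega) hl.le (Ry z Cd * (Rg z Cd * ((2 : ℝ) ^ X)⁻¹)) (by positivity)
      fun k' hk1 hk2 => ze_low H G V hCd hω hω' hE hE' f1 f3 hn e3 e1 hk1 (by omega)
    rw [← mul_sub, abs_mul, abs_of_pos (by positivity : (0 : ℝ) < 2 ^ D.g i j (l + 1))] at h1
    obtain ⟨d, hd⟩ : ∃ d, d = |D.sh (i + v) j ω (l + 1) - D.sh (i + v) j ω' (l + 1)| := ⟨_, rfl⟩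
    rw [← hd] at h1
    have hh1 := H.ok.hom (i + v) (by omega) j (by have := H.j2; omega) (l + 1) (by omega) hl.le
    have hh2 := H.ok.hom i (by omega) j (by have := H.j2; omega) (l + 1) (by omega) hl.le
    rw [H.lam1 _ (by omega) hl.le] at hh1 hh2
    have hgg : ((D.g (i + v) j (l + 1) + U * z : ℕ) : ℝ) ≤
        D.g i j (l + 1) + X + 2 * C₁ * z := by
      have hX' : (X : ℝ) = (v + U) * z := by
        rw [← hx]
        push_cast
        ring
      rw [abs_le] at hh1 hh2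
      push_cast at hh1 hh2 ⊢
      rw [hX']
      linarith [hh1.1, hh1.2, hh2.1, hh2.2]
    have h2 : (2 : ℝ) ^ (D.g (i + v) j (l + 1) + U * z) ≤
        2 ^ D.g i j (l + 1) * 2 ^ X * exp (2 * C₁ * z) := by
      have l2 : 0 ≤ Real.log 2 := Real.log_nonneg (by norm_num)
      have l1 : Real.log 2 ≤ 1 := by
        have := Real.log_le_sub_one_of_pos (by norm_num : (0 : ℝ) < 2)
        linarith
      have g0 : 0 ≤ 2 * C₁ * z := by positivity
      have m1 := mul_le_mul_of_nonneg_right hgg l2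
      have e0 : ∀ m : ℕ, (2 : ℝ) ^ m = exp (m * Real.log 2) := by
        intro m
        rw [← Real.log_pow, Real.exp_log (by positivity)]
      rw [e0, e0 (D.g i j (l + 1)), e0 X, ← Real.exp_add, ← Real.exp_add]
      refine Real.exp_le_exp.mpr (m1.trans ?_)
      nlinarith
    have h3 : (2 : ℝ) ^ (D.g (i + v) j (l + 1) + U * z) * d ≤
        2 * exp ((2 * C₁ + C + 4 * Cd) * z) := by
      have d0 : 0 ≤ d := by
        rw [hd]
        exact abs_nonneg _
      calc _ ≤ 2 ^ D.g i j (l + 1) * 2 ^ X * exp (2 * C₁ * z) * d :=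
            mul_le_mul_of_nonneg_right h2 d0
        _ = 2 ^ X * exp (2 * C₁ * z) * (2 ^ D.g i j (l + 1) * d) := by ring
        _ ≤ 2 ^ X * exp (2 * C₁ * z) *
            (exp (C * z) * (Ry z Cd * (Rg z Cd * ((2 : ℝ) ^ X)⁻¹))) :=
            mul_le_mul_of_nonneg_left h1 (by positivity)
        _ = exp (2 * C₁ * z) * exp (C * z) * (Ry z Cd * Rg z Cd) := by
            field_simp
        _ = 2 * exp ((2 * C₁ + C + 4 * Cd) * z) := by
            rw [hRg]
            unfold Ry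
            rw [show (2 * C₁ + C + 4 * Cd) * z = 2 * C₁ * z + C * z + (Cd * z + (Cd * z + (Cd * z + Cd * z)))
              by ring, Real.exp_add, Real.exp_add, Real.exp_add, Real.exp_add, Real.exp_add]
            ring
    have h4 : |(2 : ℝ) ^ (D.g (i + v) j (l + 1) + U * z) * D.sh (i + v) j ω (l + 1) -
        2 ^ (D.g (i + v) j (l + 1) + U * z) * D.sh (i + v) j ω' (l + 1)| ≤
        2 * exp ((2 * C₁ + C + 4 * Cd) * z) := by
      rw [← mul_sub, abs_mul, abs_of_pos (by positivity), ← hd]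
      exact h3
    have h5 := floor_near h4
    push_cast at h5
    unfold NDat2.vd
    have h6 : (1 : ℝ) ≤ exp ((2 * C₁ + C + 4 * Cd) * z) := Real.one_le_exp (by positivity)
    have h7 := mul_expz (a := 3) (b := 2 * C₁ + C + 4 * Cd) (by norm_num) hz
    rw [show 3 + 2 * C₁ + C + 4 * Cd = 3 + (2 * C₁ + C + 4 * Cd) by ring]
    linarith
  · intro ω hω l
    have hl : (l : ℕ) + 1 < n := by
      have := l.2
      omega
    have h1 := sh_bd (H.ok.pos (i + v) (by omega) j (by have := H.j2; omega) ω hω (l + 1)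
      (by omega) hl.le) (U * z)
    unfold NDat2.vd
    refine h1.trans ?_
    have h4 : (2 : ℝ) ^ (U * z) ≤ 2 ^ X := by
      refine pow_le_pow_right₀ (by norm_num) ?_
      rw [← hx]
      exact Nat.mul_le_mul_right _ (by omega)
    refine h4.trans ((two_pow_exp X).trans (Real.exp_le_exp.mpr ?_))
    have h7 : 0 ≤ 2 + 2 * C₁ + C + 4 * Cd := by positivity
    have h8 : (0 : ℝ) ≤ z + X := by positivity
    have h9 : 0 ≤ (2 + 2 * C₁ + C + 4 * Cd) * ((z : ℝ) + X) := mul_nonneg h7 h8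
    linarith

/-- **(few, v)** The digits of the base over the visible labels at `(i, j)`. -/
theorem few_vdD {n₀ : Fin c} (hn : gs n₀ = n) (hiM : i ≤ M) (hjM : j ≤ M) :
    CH q (D.vd n i j X) (fun ω => ((fun u : {u : Fin c // u ≠ n₀} => N ω u), (Y ω, Sv ω))) ≤
      aE (n - 1) (3 + 4 * Cd) * (z + X * Pb q (fun ω => ¬ E ω)) := by
  have hz := H.z1
  have z1 : (1 : ℝ) ≤ z := by exact_mod_cast hz
  have x0 : (0 : ℝ) ≤ X := Nat.cast_nonneg X
  have key := few_exp0 H.ok.isLaw (D.vd n i j X)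
    (fun ω => ((fun u : {u : Fin c // u ≠ n₀} => N ω u), (Y ω, Sv ω))) E
    (A := 3 + 4 * Cd) (X := X) (by positivity) hz ?_ ?_
  · rwa [Fintype.card_fin] at key
  · intro ω ω' hω hω' hE hE' e l
    obtain ⟨hRy, hRg1, hRg0, hRg⟩ := ry_rg hCd z
    have e1 : ∀ u, u ≠ n₀ → N ω u = N ω' u := fun u hu =>
      congrFun (Prod.ext_iff.mp e).1 ⟨u, hu⟩
    have e2 : Y ω = Y ω' := (Prod.ext_iff.mp (Prod.ext_iff.mp e).2).1
    have e3 : Sv ω = Sv ω' := (Prod.ext_iff.mp (Prod.ext_iff.mp e).2).2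
    have hl : (l : ℕ) + 1 < n := by
      have := l.2
      omega
    have h1 := sh_lowD H G V hCd hω hω' hE hE' hn e1 e2 e3 (l := l + 1) (by omega) hl
    unfold NDat2.vd
    have h2 := fl_sub (2 ^ (D.g i j (l + 1) + X) * D.sh i j ω (l + 1))
      (2 ^ (D.g i j (l + 1) + X) * D.sh i j ω' (l + 1))
    have hpX : (0 : ℝ) < 2 ^ X := by positivity
    have h3 : (2 : ℝ) ^ (D.g i j (l + 1) + X) * D.sh i j ω (l + 1) -
        2 ^ (D.g i j (l + 1) + X) * D.sh i j ω' (l + 1) =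
        2 ^ X * (2 ^ D.g i j (l + 1) * D.sh i j ω (l + 1) -
          2 ^ D.g i j (l + 1) * D.sh i j ω' (l + 1)) := by
      rw [pow_add]
      ring
    rw [h3, abs_mul, abs_of_pos hpX] at h2
    push_cast at h2
    have h4 := mul_le_mul_of_nonneg_left h1 hpX.le
    have h5 : (2 : ℝ) ^ X * (Ry z Cd * (Rg z Cd * ((2 : ℝ) ^ X)⁻¹)) = Ry z Cd * Rg z Cd := by
      field_simp
    have h6 : Ry z Cd * Rg z Cd = 2 * exp (4 * Cd * z) := by
      rw [hRg]
      unfold Ry
      rw [show 4 * Cd * z = Cd * z + (Cd * z + (Cd * z + Cd * z)) by ring, Real.exp_add,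
        Real.exp_add, Real.exp_add]
      ring
    rw [h5, h6] at h4
    have h7 := mul_expz (a := 3) (b := 4 * Cd) (by norm_num) hz
    have h8 : (1 : ℝ) ≤ exp (4 * Cd * z) := Real.one_le_exp (by positivity)
    linarith
  · intro ω hω l
    have hl : (l : ℕ) + 1 < n := by
      have := l.2
      omega
    have h1 := sh_bd (H.ok.pos i hiM j hjM ω hω (l + 1) (by omega) hl.le) X
    unfold NDat2.vd
    refine h1.trans ((two_pow_exp X).trans (Real.exp_le_exp.mpr ?_))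
    have h8 : (0 : ℝ) ≤ z + X := by positivity
    have h9 : 0 ≤ (2 + 4 * Cd) * ((z : ℝ) + X) := mul_nonneg (by positivity) h8
    linarith

/-- **(few, n)** The target, given its height over the visible label. -/
theorem few_nuD (hA : 0 ≤ A₀) {n₀ : Fin c} (hn : gs n₀ = n) :
    CH q (fun ω => N ω n₀) (fun ω => (D.nd n i j X ω,
      ((fun u : {u : Fin c // u ≠ n₀} => N ω u), (Y ω, Sv ω)))) ≤
      aE 1 (2 + 2 * Cd + A₀) * (z + X * Pb q (fun ω => ¬ E ω)) := by
  have hz := H.z1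
  have z1 : (1 : ℝ) ≤ z := by exact_mod_cast hz
  have x0 : (0 : ℝ) ≤ X := Nat.cast_nonneg X
  have h0 := H.ok.isLaw.nonneg
  have e0 : CH q (fun ω => N ω n₀) (fun ω => (D.nd n i j X ω,
      ((fun u : {u : Fin c // u ≠ n₀} => N ω u), (Y ω, Sv ω)))) ≤
      CH q (fun ω (_ : Fin 1) => N ω n₀) (fun ω => (D.nd n i j X ω,
      ((fun u : {u : Fin c // u ≠ n₀} => N ω u), (Y ω, Sv ω)))) := by
    refine CH_mono_left h0 ?_
    intro ω ω' _ _ e
    simp only [Prod.mk.injEq] at e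
    exact congrFun e.1 0
  have key := few_exp0 H.ok.isLaw (fun ω (_ : Fin 1) => N ω n₀)
    (fun ω => (D.nd n i j X ω,
      ((fun u : {u : Fin c // u ≠ n₀} => N ω u), (Y ω, Sv ω)))) E
    (A := 2 + 2 * Cd + A₀) (X := X) (by positivity) hz ?_ ?_
  · rw [Fintype.card_fin] at key
    exact e0.trans key
  · intro ω ω' hω hω' hE hE' e _
    obtain ⟨hRy, hRg1, hRg0, hRg⟩ := ry_rg hCd z
    have e1 := (Prod.ext_iff.mp e).2
    have e2 : ∀ u, u ≠ n₀ → N ω u = N ω' u := fun u hu =>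
      congrFun (Prod.ext_iff.mp e1).1 ⟨u, hu⟩
    have e3 : Y ω = Y ω' := (Prod.ext_iff.mp (Prod.ext_iff.mp e1).2).1
    have e4 : Sv ω = Sv ω' := (Prod.ext_iff.mp (Prod.ext_iff.mp e1).2).2
    have h1 := nu_nearD H G V hCd hω hω' hE hE' hn e2 e3 e4 (Prod.ext_iff.mp e).1
    push_cast at h1
    have h2 : Ry z Cd * Ry z Cd = exp (2 * Cd * z) := by
      unfold Ry
      rw [← Real.exp_add]
      congr 1
      ring
    rw [h2] at h1
    have h7 := mul_expz (a := 2) (b := 2 * Cd) (by norm_num) hz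
    have h8 : (1 : ℝ) ≤ exp (2 * Cd * z) := Real.one_le_exp (by positivity)
    have h9 : exp ((2 + 2 * Cd) * z) ≤ exp ((2 + 2 * Cd + A₀) * z) :=
      Real.exp_le_exp.mpr (by nlinarith)
    linarith
  · intro ω hω _
    refine (V.nB ω hω n₀).trans (Real.exp_le_exp.mpr ?_)
    have h8 : (0 : ℝ) ≤ z + X := by positivity
    have h9 : 0 ≤ (2 + 2 * Cd) * ((z : ℝ) + X) := mul_nonneg (by positivity) h8
    linarith

end

end Pool.P5N
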