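import Pool.Agent.H25.P5.V6
import Pool.Agent.H98.P5.V7
import Pool.Agent.H98.P5.HF
import Pool.Agent.H89.P4.V8

/-!
# P5: the visible chart of a cell

`cell_vch`: `VCh` for the picture of a cell, with the flag. The digits of the near point are the
ones of one fixed sample with the same exact point.
-/

set_option autoImplicit false

namespace Pool.P5

open Finset Real MvPolynomial
open Pool.Agent.H49.Ent Pool.Agent.H32.Dense Pool.STK Pool.STAT Pool.MIC.Frm Pool.MIC7 Pool.FRM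
open Pool.GSD Pool.POT Pool.P5N
open Pool.QT64 (QH)
open Pool.QC (nfb)
open Pool.BFL (Pb)
open Pool.P4 (t0 rt pp PthC FraC bb ze zt z0 be cl1 dg dgp Ry cb LLC tq GoodS FrP err Dch Cht Rcv
  rcd zd zh cMx yD yF nF MF err_up exp_mz' dg_absR dgp_abs)
open Pool.P4N (DchX dch_x dch_mono dch_near)

/-- **The visible chart of a cell.** -/
theorem cell_vch (n K K' c k0 k1 B : ℕ) (C₀ C₁ : ℝ) (hB : 1 ≤ B) (hC₀ : 0 ≤ C₀)
    (hC₁ : 0 ≤ C₁) : ∃ F : ℝ, 0 ≤ F ∧ ∀ C : ℝ, F ≤ C → ∀ B' : ℕ, 0 < B' → ∃ A : ℝ, 1 ≤ A ∧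
    ∀ (D : NDat2) (J a₀ w₀ z M w i j r r2 r' r'' y a U : ℕ) (lam gam : ℕ → ℝ) (κ h h' ϖ c0 : ℝ)
      (q : D.Ω → ℝ) (E : D.Ω → Prop) (P : D.Γ × D.Γ → ℕ → PN) (S : Slo D)
      (ys : Fin (k0 + k1) → ℕ) (gs : Fin c → ℕ) (n₀ : Fin c) {ζ : Type} (Zc : D.Ω → ζ),
      Hyp D n K K' J a₀ w₀ z M w i j r r2 r' r'' y a (B * U * z) lam gam κ C₁ C q E P S ys gs →
      Geo D n K' J w₀ z i j r r2 r' r'' gam C₀ (exp (C₀ * z) / 2 ^ (y * z)) q E P S →
      (∀ ω, E ω → 0 < q ω ∧ GoodS D n K' w₀ z M C₀ ω ∧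
        FrP D n K' z i j r C₀ (P (bb D i j r ω)) ω) →
      D.NF n z M B gam h C₁ ϖ q → ϖ ≤ 1 → gs n₀ = n → i + B * U ≤ M →
      ((B * U : ℕ) : ℝ) ≤ gam n * (M - j) →
      Det q Zc (fun ω => (bb D i j r ω, D.T ω)) →
      ((n - 1 : ℕ) : ℝ) * (B * (B * U * z) : ℕ) * Real.log 2 - C * z ≤
        CH q (D.vd n i j (B * (B * U * z))) Zc →
      (1 - h') * (B * U * z : ℕ) * Real.log 2 - C₁ * z ≤
        CH q (D.nd n i j (B * U * z)) (fun ω => (D.nd n i j 0 ω,
          (D.vd n i j (B * (B * U * z)) ω, Zc ω))) →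
      err A κ z (B * U * z) (Pb q (fun ω => ¬ E ω)) ≤
        (h / B - c0) * (B * U * z : ℕ) * Real.log 2 →
      VCh ((qh (c := c) (k0 := k0) (k1 := k1) D J w z i j r (B * U * z) C P S ys gs q).flag E) (B * U * z) B'
        n₀ c0 (err A κ z (B * U * z) (Pb q (fun ω => ¬ E ω)))
        ((h' - h) * (B * U * z : ℕ) * Real.log 2 +
          err A κ z (B * U * z) (Pb q (fun ω => ¬ E ω)))
        (exp (A * z)) (fun ω => (E ω, rcd D i j r a ω))
        (yF E (yD z (B * U * z) C (zh D i j r a E P) ys))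
        (nF E (nuD z (B * U * z) C (zh D i j r a E P) gs)
          (qh (c := c) (k0 := k0) (k1 := k1) D J w z i j r (B * U * z) C P S ys gs q).hgt)
        (MF i j r E (rcd D i j r a) (cMx D J a₀ z i j r a E P gs)) := by
  obtain ⟨c', hc', HC⟩ := cht_hat n K K' c C₀ C₁ hC₀ hC₁
  obtain ⟨Cd, hCd1, hCd2, HD⟩ := Pool.P4.dch n (max K K') C₀ hC₀
  obtain ⟨F, hF⟩ : ∃ F : ℝ, F = c' + 3 + 2 * (Cd + c') := ⟨_, rfl⟩
  refine ⟨F, by rw [hF]; positivity, fun C hFC B' hB' => ?_⟩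
  have hC : 0 ≤ C := le_trans (by rw [hF]; positivity) hFC
  have hcC : c' ≤ C := by
    rw [hF] at hFC
    linarith
  obtain ⟨Av, hAv, HV⟩ := vch n K K' c k0 k1 C₁ C
  obtain ⟨An, hAn, HN⟩ := nfv n K K' c k0 k1 B B' C₁ C C 1 hB hB' hC zero_le_one
  obtain ⟨Ah, hAh, HH⟩ := hf_vis n K K' c k0 k1 B C₁ C C 1 hB hC zero_le_one
  obtain ⟨A, hA⟩ : ∃ A : ℝ, A = Av + An + Ah + B' * Av := ⟨_, rfl⟩
  have hB'0 : (0 : ℝ) ≤ B' := Nat.cast_nonneg _
  have hBA : 0 ≤ B' * Av := mul_nonneg hB'0 (by linarith)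
  refine ⟨A, by rw [hA]; linarith, ?_⟩
  intro D J a₀ w₀ z M w i j r r2 r' r'' y a U lam gam κ h h' ϖ c0 q E P S ys gs n₀ ζ Zc H hg gd
    hNF hϖ hn hU hU' hZc lo1 lo2 herr
  have hFx := H.fx hg gd
  have hq := H.ok.isLaw
  have hb0 : 0 ≤ Pb q (fun ω => ¬ E ω) := H.b0
  have hκ := H.κ0
  obtain ⟨hnear, hcht⟩ := HC D J a₀ w₀ z M w i j r r2 r' r'' y (B * U * z) a k0 k1 lam gam κ C q E P S
    ys gs H hFx hcC
  -- the visible chart of the fixed samples
  have hdch : Dch D n z i j r (B * U * z) Cd q E P (rcd D i j r a) (zd D i j r a E P) := by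
    have hiM : i ≤ M := hFx.iM.le
    have hjM : j ≤ M := by
      have := hFx.jM
      omega
    exact HD D K K' J a₀ w₀ z M i j r a (B * U * z) lam gam κ C₁ q E P H.ok (le_max_left _ _)
      (le_max_right _ _) H.z1 hiM hjM (fun ω hω => ⟨(gd ω hω).1, (gd ω hω).2.2⟩)
  have hz := H.z1
  have hG : DchX D n z i j r (B * U * z) C q E P (rcd D i j r a) (zh D i j r a E P) := by
    have g1 := dch_mono (dch_x hdch) (show Cd ≤ Cd + c' by linarith)
    have g2 := dch_near g1 (by linarith) hz (zh := zh D i j r a E P) (fun ω _ hω l h1 h2 =>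
      (hnear ω hω l h1 h2).trans (mul_le_mul_of_nonneg_right
        (exp_mz' (show c' ≤ Cd + c' by linarith) z) (by positivity)))
    exact dch_mono g2 (by rw [hF] at hFC; linarith)
  have hR : Rcv D n z i j r C q E (rcd D i j r a) (zh D i j r a E P) :=
    { bs := hG.bs
      sT := fun ω ω' a b e => (hG.sT ω ω' a b e).1
      bd := hG.bd }
  have hexp : (2 : ℝ) ^ (B * U * z) ≤ exp (1 * (z + (B * U * z : ℕ))) := by
    refine (Pool.P4.two_pow_exp _).trans (Real.exp_le_exp.mpr ?_)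
    have : (0 : ℝ) ≤ z := Nat.cast_nonneg z
    linarith
  have hV : VisD D z (B * U * z) C 1 q E ys gs (rcd D i j r a) (zh D i j r a E P)
      (nuD z (B * U * z) C (zh D i j r a E P) gs) (yD z (B * U * z) C (zh D i j r a E P) ys)
      (rcd D i j r a) :=
    { nN := fun _ _ _ => rfl
      yY := fun _ _ _ => rfl
      nB := fun ω _ u => (dg_absR _).trans hexp
      yB := fun ω _ u => by
        have h1 : |(yD z (B * U * z) C (zh D i j r a E P) ys ω u : ℝ)| ≤ 2 ^ (B * U * z) := by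
          exact_mod_cast dgp_abs _
        exact h1.trans hexp
      dS := fun _ _ _ _ e => e
      Sd := fun _ _ _ _ e => (Prod.ext_iff.mp e).2 }
  have hUM : i + U ≤ M := by
    have : U ≤ B * U := Nat.le_mul_of_pos_left U hB
    omega
  have hUg : (U : ℝ) ≤ gam n * (M - j) := by
    refine le_trans ?_ hU'
    exact_mod_cast Nat.le_mul_of_pos_left U hB
  have a1 := HN D J a₀ w₀ z M w i j r r2 r' r'' y a U lam gam κ h ϖ q E P S ys gs n₀ (rcd D i j r a)
    (zh D i j r a E P) _ _ _ H hG hV hNF hϖ hn hUM hUg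
  have a2 := HH D J a₀ w₀ z M w i j r r2 r' r'' y a (B * U) lam gam κ h h' ϖ q E P S ys gs
    (rcd D i j r a) (zh D i j r a E P) _ _ _ Zc H hG hV hNF hϖ hU hU' hZc lo1 (by
      have e1 : ((B * U : ℕ) : ℝ) * z = ((B * U * z : ℕ) : ℝ) := by push_cast; ring
      rw [e1]
      exact lo2)
  -- the errors
  obtain ⟨b, hb⟩ : ∃ b, b = Pb q (fun ω => ¬ E ω) := ⟨_, rfl⟩
  obtain ⟨X, hX⟩ : ∃ X, X = B * U * z := ⟨_, rfl⟩
  rw [← hb] at hb0 herr a1 a2 ⊢
  have e1 : err An κ z (B * U * z) b + B' * err Av κ z (B * U * z) b ≤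
      err A κ z (B * U * z) b := by
    have : An + B' * Av ≤ A := by rw [hA]; linarith
    refine le_trans (le_of_eq ?_) (err_up this hκ hb0)
    unfold err
    ring
  have e2 : err Av κ z (B * U * z) b ≤ err A κ z (B * U * z) b :=
    err_up (by rw [hA]; linarith) hκ hb0
  have e3 : err Ah κ z (B * U * z) b + err Av κ z (B * U * z) b ≤
      err A κ z (B * U * z) b := by
    have : Ah + Av ≤ A := by rw [hA]; linarith
    refine le_trans (le_of_eq ?_) (err_up this hκ hb0)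
    unfold err
    ring
  have a3 := HV D J a₀ w₀ z M w i j r r2 r' r'' y a (B * U * z) lam gam κ q E P S ys gs H
    (rcd D i j r a) (zh D i j r a E P) (cMx D J a₀ z i j r a E P gs) hR hcht n₀ B'
    ((h' - h) * (B * U * z : ℕ) * Real.log 2 + err Ah κ z (B * U * z) b)
    ((1 - h / B) * (B * U * z : ℕ) * Real.log 2 + err An κ z (B * U * z) b) c0 a2 a1 (by
      rw [← hb]
      have : (h / B - c0) * ((B * U * z : ℕ) : ℝ) * Real.log 2 =
        (1 - c0) * ((B * U * z : ℕ) : ℝ) * Real.log 2 -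
        (1 - h / B) * ((B * U * z : ℕ) : ℝ) * Real.log 2 := by ring
      linarith)
  rw [← hb] at a3
  exact a3.up e2 (by linarith) (exp_mz' (by rw [hA]; linarith) z)

end Pool.P5
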